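import Pool.Agent.BVM.Ord

/-!
# The quotient model satisfies ZFC
-/

namespace Pool.Agent.BVM

open Pool.Agent.LadderTree

section

variable {B : Type} [CompleteBooleanAlgebra B]

theorem Congr.inf {Q R : BSet B → B} (hQ : Congr Q) (hR : Congr R) :
    Congr (fun x => Q x ⊓ R x) := by
  intro x y
  exact le_inf (le_trans (inf_le_inf_left _ inf_le_left) (hQ x y))
    (le_trans (inf_le_inf_left _ inf_le_right) (hR x y))

theorem Congr.mem_left (z : BSet B) : Congr (fun x => memv z x) :=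
  fun x y => memv_congr_right z x y

theorem Congr.iSup {ι : Sort*} {Q : ι → BSet B → B} (h : ∀ i, Congr (Q i)) :
    Congr (fun x => ⨆ i, Q i x) := by
  intro x y
  rw [inf_iSup_eq]
  exact iSup_mono fun i => h i x y

/-- fullness in the quotient -/
theorem UF.exists_of_iSup (F : UF B) {Q : BSet B → B} (hQ : Congr Q) (h : F.U (⨆ x, Q x)) :
    ∃ x, F.U (Q x) := by
  obtain ⟨x, hx⟩ := hQ.full
  exact ⟨x, hx ▸ h⟩

/-- separation -/
theorem exists_sep {Q : BSet B → B} (hQ : Congr Q) (x : BSet B) :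
    ∃ y, ∀ z, memv z y = memv z x ⊓ Q z := by
  obtain ⟨α, A, b⟩ := x
  refine ⟨.mk α A (fun a => b a ⊓ Q (A a)), fun z => ?_⟩
  rw [memv_mk, memv_mk, iSup_inf_eq]
  refine iSup_congr fun a => le_antisymm ?_ ?_
  · refine le_inf (le_inf (inf_le_left.trans inf_le_left) inf_le_right) ?_
    refine le_trans ?_ (hQ (A a) z)
    rw [eqv_symm (A a) z]
    exact le_inf inf_le_right (inf_le_left.trans inf_le_right)
  · refine le_inf (le_inf (inf_le_left.trans inf_le_left) ?_) (inf_le_left.trans inf_le_right)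
    refine le_trans ?_ (hQ z (A a))
    exact inf_le_inf_right _ inf_le_right

/-- collection -/
theorem exists_coll (Q : BSet B → BSet B → B) (hQ : ∀ z, Congr (fun x => Q x z)) (x : BSet B) :
    ∃ y, ∀ a, memv a x ⊓ (⨆ z, Q a z) ≤ ⨆ z, memv z y ⊓ Q a z := by
  obtain ⟨α, A, b⟩ := x
  choose w hw using fun a => exists_small (fun z => Q (A a) z)
  refine ⟨chk fun s : α × B => w s.1 s.2, fun a => ?_⟩
  rw [memv_mk, iSup_inf_eq]
  refine iSup_le fun i => ?_
  have hQs : Congr (fun x => ⨆ z, Q x z) := Congr.iSup hQ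
  have h1 : b i ⊓ eqv a (A i) ⊓ (⨆ z, Q a z) ≤ ⨆ c, Q (A i) (w i c) := by
    refine le_trans (le_trans ?_ (hQs a (A i))) (hw i)
    exact inf_le_inf_right _ inf_le_right
  refine sup_elim h1 fun c => ?_
  refine le_iSup_of_le (w i c) (le_inf ?_ ?_)
  · refine le_top.trans ?_
    rw [memv_chk, top_le_iff, eq_top_iff]
    exact le_iSup_of_le (i, c) (by rw [eqv_refl])
  · refine le_trans ?_ (hQ (w i c) (A i) a)
    rw [eqv_symm (A i) a]
    exact inf_le_inf_right _ (inf_le_left.trans inf_le_right)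

/-- foundation -/
theorem found_le (x y : BSet B) : memv y x ≤ ⨆ z, memv z x ⊓ ⨅ t, memv t z ⇨ (memv t x)ᶜ := by
  induction y with
  | mk α A b ih =>
    set c := ⨆ z, memv z x ⊓ ⨅ t, memv t z ⇨ (memv t x)ᶜ with hc
    set s := ⨆ a, b a ⊓ memv (A a) x with hs
    have h1 : s ≤ c := iSup_le fun a => inf_le_right.trans (ih a)
    have h2 : memv (.mk α A b) x ⊓ sᶜ ≤ c := by
      rw [hc]
      refine le_iSup_of_le (.mk α A b) (inf_le_inf_left _ (le_iInf fun t => ?_))
      rw [le_himp_iff]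
      refine le_compl_iff_disjoint_right.2 (disjoint_iff_inf_le.2 ?_)
      rw [inf_assoc]
      have h3 : memv t (.mk α A b) ⊓ memv t x ≤ s := by
        rw [memv_mk, iSup_inf_eq, hs]
        refine iSup_mono fun a => ?_
        refine le_inf (inf_le_left.trans inf_le_left) ?_
        refine le_trans ?_ (memv_congr_left t (A a) x)
        exact inf_le_inf_right _ inf_le_right
      exact (inf_le_inf_left _ h3).trans (compl_inf_self s).le
    calc memv (.mk α A b) x = memv (.mk α A b) x ⊓ (s ⊔ sᶜ) := by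
          rw [sup_compl_eq_top, inf_top_eq]
      _ = (memv (.mk α A b) x ⊓ s) ⊔ (memv (.mk α A b) x ⊓ sᶜ) := inf_sup_left _ _ _
      _ ≤ c := sup_le (inf_le_right.trans h1) h2

/-- unordered pairs -/
def pr2 (x y : BSet B) : BSet B := chk fun b : Bool => cond b x y

theorem memv_pr2 (x y z : BSet B) : memv z (pr2 x y) = eqv z x ⊔ eqv z y := by
  rw [pr2, memv_chk, iSup_bool_eq]
  rfl

/-- index type of a name -/
def BSet.ty : BSet B → Type
  | .mk α _ _ => α

/-- elements of a name -/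
def BSet.fn : (x : BSet B) → x.ty → BSet B
  | .mk _ A _ => A

/-- values of a name -/
def BSet.bv : (x : BSet B) → x.ty → B
  | .mk _ _ b => b

theorem memv_eq (z x : BSet B) : memv z x = ⨆ i, x.bv i ⊓ eqv z (x.fn i) := by
  obtain ⟨α, A, b⟩ := x
  rfl

/-- union -/
theorem exists_union (x : BSet B) : ∃ u, ∀ t, memv t u = ⨆ y, memv y x ⊓ memv t y := by
  obtain ⟨α, A, b⟩ := x
  refine ⟨.mk (Σ a, (A a).ty) (fun s => (A s.1).fn s.2) (fun s => b s.1 ⊓ (A s.1).bv s.2),
    fun t => ?_⟩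
  rw [(Congr.mem_left t).bex, memv_mk, iSup_sigma]
  refine iSup_congr fun a => ?_
  simp only
  rw [memv_eq t (A a), inf_iSup_eq]
  exact iSup_congr fun i => inf_assoc _ _ _

/-- power sets -/
theorem exists_power (x : BSet B) : ∃ p, ∀ t, memv t p = ⨅ z, memv z t ⇨ memv z x := by
  obtain ⟨α, A, b⟩ := x
  refine ⟨chk fun f : α → B => .mk α A (fun a => f a ⊓ b a), fun t => ?_⟩
  rw [memv_chk]
  refine le_antisymm (iSup_le fun f => le_iInf fun z => ?_) ?_
  · rw [le_himp_iff]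
    refine (memv_congr_right z t _).trans ?_
    rw [memv_mk, memv_mk]
    exact iSup_mono fun a => inf_le_inf_right _ inf_le_right
  · refine le_iSup_of_le (fun a => memv (A a) t) ?_
    refine le_trans (le_iInf fun z => le_inf ?_ ?_) (ext_le _ _)
    · rw [le_himp_iff]
      have h1 : (⨅ z, memv z t ⇨ memv z (.mk α A b)) ⊓ memv z t ≤ memv z (.mk α A b) :=
        (inf_le_inf_right _ (iInf_le _ z)).trans himp_inf_le
      refine sup_elim (h1.trans (memv_mk z A b).le) fun a => ?_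
      rw [memv_mk]
      refine le_iSup_of_le a (le_inf (le_inf ?_ (inf_le_right.trans inf_le_left))
        (inf_le_right.trans inf_le_right))
      refine le_trans ?_ (memv_congr_left z (A a) t)
      exact le_inf (inf_le_right.trans inf_le_right) (inf_le_left.trans inf_le_right)
    · rw [le_himp_iff]
      refine sup_elim (inf_le_right.trans (memv_mk z A _).le) fun a => ?_
      refine le_trans ?_ (memv_congr_left (A a) z t)
      rw [eqv_symm (A a) z]
      exact le_inf (inf_le_right.trans inf_le_right)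
        (inf_le_right.trans (inf_le_left.trans inf_le_left))

theorem memv_on_succ (n : ℕ) (z : BSet B) :
    memv z (on (n + 1)) = memv z (on n) ⊔ eqv z (on n) := by
  rw [on_def (n + 1), on_def n, memv_chk, memv_chk]
  refine le_antisymm (iSup_le fun m => ?_) (sup_le (iSup_le fun m => ?_) ?_)
  · rcases Nat.lt_succ_iff_lt_or_eq.1 m.2 with h | h
    · exact le_sup_of_le_left (le_iSup_of_le (⟨m.1, h⟩ : Set.Iio n) le_rfl)
    · refine le_sup_of_le_right ?_
      rw [h, on_def n]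
  · exact le_iSup_of_le (⟨m.1, Nat.lt_succ_of_lt m.2⟩ : Set.Iio (n + 1)) le_rfl
  · refine le_iSup_of_le (⟨n, Nat.lt_succ_self n⟩ : Set.Iio (n + 1)) ?_
    simp only
    rw [on_def n]

theorem memv_on_zero (z : BSet B) : memv z (on 0) = ⊥ := by
  rw [on_def 0, memv_chk, iSup_eq_bot]
  rintro ⟨m, hm⟩
  exact absurd hm (Nat.not_lt_zero m)

/-- choice: transversals -/
theorem exists_choice (x : BSet B) : ∃ c : BSet B,
    (∀ y, memv y x ⊓ (⨆ z, memv z y) ≤ ⨆ z, memv z y ⊓ memv z c) ∧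
    ∀ y z₁ z₂, memv y x ⊓ (memv z₁ y ⊓ memv z₁ c) ⊓ (memv z₂ y ⊓ memv z₂ c) ⊓
      (⨅ y₁, ⨅ y₂, ⨅ z, (memv y₁ x ⊓ memv y₂ x ⊓ memv z y₁ ⊓ memv z y₂) ⇨ eqv y₁ y₂) ≤
      eqv z₁ z₂ := by
  obtain ⟨α, A, b⟩ := x
  let γ : Type := Σ a, (A a).ty
  let r : γ → γ → Prop := WellOrderingRel
  have hwf : WellFounded r := WellOrderingRel.isWellOrder.wf
  let C : γ → BSet B := fun g => (A g.1).fn g.2
  let fst : γ → α → B := fun g a => memv (C g) (A a) ⊓ (⨆ g', ⨆ _ : r g' g, memv (C g') (A a))ᶜ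
  let bc : γ → B := fun g => ⨆ a, b a ⊓ fst g a
  refine ⟨.mk γ C bc, fun y => ?_, fun y z₁ z₂ => ?_⟩
  · rw [memv_mk y, iSup_inf_eq]
    refine iSup_le fun a => ?_
    have hs : Congr (fun y : BSet B => ⨆ z, memv z y) := Congr.iSup fun z => Congr.mem_left z
    have h1 : b a ⊓ eqv y (A a) ⊓ (⨆ z, memv z y) ≤ ⨆ g : γ, memv (C g) (A a) := by
      refine le_trans (le_trans (inf_le_inf_right _ inf_le_right) (hs y (A a))) ?_
      refine iSup_le fun z => ?_
      rw [memv_eq z (A a)]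
      refine iSup_le fun i => le_iSup_of_le (⟨a, i⟩ : γ) ?_
      rw [memv_eq]
      exact le_iSup_of_le i (le_inf inf_le_left (le_top.trans (eqv_refl ((A a).fn i)).ge))
    rw [sup_first r hwf] at h1
    refine sup_elim h1 fun (g : γ) => ?_
    refine le_iSup_of_le (C g) (le_inf ?_ ?_)
    · refine le_trans (le_inf ?_ ?_) (memv_congr_right (C g) (A a) y)
      · rw [eqv_symm (A a) y]
        exact inf_le_left.trans (inf_le_left.trans inf_le_right)
      · exact inf_le_right.trans inf_le_left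
    · refine le_trans ?_ (memv_self C bc g)
      refine le_iSup_of_le a ?_
      exact inf_le_inf (inf_le_left.trans inf_le_left) le_rfl
  · set D := (⨅ y₁, ⨅ y₂, ⨅ z, (memv y₁ (.mk α A b) ⊓ memv y₂ (.mk α A b) ⊓ memv z y₁ ⊓
      memv z y₂) ⇨ eqv y₁ y₂) with hD
    rw [memv_mk z₁ C bc, memv_mk z₂ C bc]
    refine sup_elim (f := fun g => bc g ⊓ eqv z₁ (C g))
      (inf_le_left.trans (inf_le_left.trans (inf_le_right.trans inf_le_right))) fun g₁ => ?_
    refine sup_elim (f := fun g => bc g ⊓ eqv z₂ (C g))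
      (inf_le_left.trans (inf_le_left.trans (inf_le_right.trans inf_le_right))) fun g₂ => ?_
    refine sup_elim (f := fun a => b a ⊓ fst g₁ a)
      (inf_le_left.trans (inf_le_right.trans inf_le_left)) fun a₁ => ?_
    refine sup_elim (f := fun a => b a ⊓ fst g₂ a)
      (inf_le_left.trans (inf_le_right.trans inf_le_left)) fun a₂ => ?_
    refine le_of_uf fun F h => ?_
    simp only [F.inf_iff] at h
    obtain ⟨⟨⟨⟨⟨⟨⟨h1, h2, _⟩, h3, _⟩, h4⟩, _, h5⟩, _, h6⟩, h7, h89⟩, h10, h1112⟩ := h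
    obtain ⟨h8, h9⟩ := F.inf_iff.1 h89
    obtain ⟨h11, h12⟩ := F.inf_iff.1 h1112
    have hdis : ∀ a z, F.U (b a) → F.U (memv z (A a)) → F.U (memv z y) → F.U (eqv y (A a)) := by
      intro a z ha hz hz'
      have h13 : F.U ((memv y (.mk α A b) ⊓ memv (A a) (.mk α A b) ⊓ memv z y ⊓
          memv z (A a)) ⇨ eqv y (A a)) :=
        F.mono ((iInf_le _ y).trans ((iInf_le _ (A a)).trans (iInf_le _ z))) h4
      rw [F.himp_iff] at h13
      apply h13
      simp only [F.inf_iff]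
      exact ⟨⟨⟨h1, F.mono (memv_self A b a) ha⟩, hz'⟩, hz⟩
    have e1 : F.U (eqv y (A a₁)) := by
      refine hdis a₁ (C g₁) h7 h8 ?_
      exact F.mono (memv_congr_left z₁ (C g₁) y) (F.inf_iff.2 ⟨h5, h2⟩)
    have e2 : F.U (eqv y (A a₂)) := by
      refine hdis a₂ (C g₂) h10 h11 ?_
      exact F.mono (memv_congr_left z₂ (C g₂) y) (F.inf_iff.2 ⟨h6, h3⟩)
    have e3 : F.U (eqv (A a₁) (A a₂)) := by
      refine F.mono (eqv_trans (A a₁) y (A a₂)) (F.inf_iff.2 ⟨?_, e2⟩)
      rw [eqv_symm]; exact e1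
    have hg : g₁ = g₂ := by
      rcases @trichotomous _ r (inferInstance) g₁ g₂ with h | h | h
      · exfalso
        rw [F.compl_iff] at h12
        apply h12
        refine F.mono (le_iSup₂_of_le g₁ h le_rfl) ?_
        exact F.mono (memv_congr_right (C g₁) (A a₁) (A a₂)) (F.inf_iff.2 ⟨e3, h8⟩)
      · exact h
      · exfalso
        rw [F.compl_iff] at h9
        apply h9
        refine F.mono (le_iSup₂_of_le g₂ h le_rfl) ?_
        refine F.mono (memv_congr_right (C g₂) (A a₂) (A a₁)) (F.inf_iff.2 ⟨?_, h11⟩)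
        rw [eqv_symm]; exact e3
    refine F.mono (eqv_trans z₁ (C g₁) z₂) (F.inf_iff.2 ⟨h5, ?_⟩)
    rw [eqv_symm, hg]
    exact h6

/-- lifting assignments -/
theorem exists_lift (F : UF B) (v : ℕ → Mod F) : ∃ v' : ℕ → BSet B,
    v = fun i => Mod.mk F (v' i) := by
  choose v' hv' using fun i => (v i).exists_rep
  exact ⟨v', funext fun i => (hv' i).symm⟩

/-- the quotient model is a model of ZFC -/
theorem zfc (F : UF B) : ZFC (Mod.E F) where
  ext x y h := by
    obtain ⟨x, rfl⟩ := x.exists_rep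
    obtain ⟨y, rfl⟩ := y.exists_rep
    rw [Mod.mk_eq]
    have h1 := los F (.all (.iff (.mem 0 1) (.mem 0 2))) (cons x fun _ => y)
    refine F.mono (ext_le x y) (h1.1 ?_)
    intro z
    exact h z
  found x h := by
    obtain ⟨x, rfl⟩ := x.exists_rep
    obtain ⟨y, hy⟩ := h
    obtain ⟨y, rfl⟩ := y.exists_rep
    have h1 := los F (.ex (.and (.mem 0 1) (.all (.imp (.mem 0 1) (.neg (.mem 0 2))))))
      (fun _ => x)
    exact h1.2 (F.mono (found_le x y) hy)
  pair x y := by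
    obtain ⟨x, rfl⟩ := x.exists_rep
    obtain ⟨y, rfl⟩ := y.exists_rep
    refine ⟨Mod.mk F (pr2 x y), fun t => ?_⟩
    obtain ⟨t, rfl⟩ := t.exists_rep
    rw [Mod.E_mk, memv_pr2, F.sup_iff, Mod.mk_eq, Mod.mk_eq]
  union x := by
    obtain ⟨x, rfl⟩ := x.exists_rep
    obtain ⟨u, hu⟩ := exists_union x
    refine ⟨Mod.mk F u, fun t => ?_⟩
    obtain ⟨t, rfl⟩ := t.exists_rep
    rw [Mod.E_mk, hu]
    exact (los F (.ex (.and (.mem 0 2) (.mem 1 0))) (cons t fun _ => x)).symm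
  power x := by
    obtain ⟨x, rfl⟩ := x.exists_rep
    obtain ⟨u, hu⟩ := exists_power x
    refine ⟨Mod.mk F u, fun t => ?_⟩
    obtain ⟨t, rfl⟩ := t.exists_rep
    rw [Mod.E_mk, hu]
    exact (los F (.all (.imp (.mem 0 1) (.mem 0 2))) (cons t fun _ => x)).symm
  infinity := by
    refine ⟨Mod.mk F (onT ℕ), ⟨Mod.mk F (on 0), ?_, fun z => ?_⟩, fun y hy => ?_⟩
    · rw [Mod.E_mk, memv_on_onT]
      exact F.top
    · obtain ⟨z, rfl⟩ := z.exists_rep
      rw [Mod.E_mk, memv_on_zero]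
      exact F.bot
    · obtain ⟨y, rfl⟩ := y.exists_rep
      refine (los F (.ex (.and (.mem 0 2) (.all (.iff (.mem 0 1) (.or (.mem 0 2) (.eq 0 2))))))
        (cons y fun _ => onT ℕ)).2 ?_
      have hQ : Congr (fun y => val (.ex (.and (.mem 0 2) (.all (.iff (.mem 0 1)
        (.or (.mem 0 2) (.eq 0 2)))))) (cons y fun _ => (onT ℕ : BSet B))) := val_congr1 _ _
      have h1 := chk_ball (nm := (on : ℕ → BSet B)) hQ
      have h2 : (⨅ n : ℕ, val (.ex (.and (.mem 0 2) (.all (.iff (.mem 0 1)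
        (.or (.mem 0 2) (.eq 0 2)))))) (cons (on n) fun _ => (onT ℕ : BSet B))) = ⊤ := by
        rw [iInf_eq_top]
        intro n
        rw [eq_top_iff]
        refine le_iSup_of_le (on (n + 1)) (le_inf (memv_on_onT _).ge (le_iInf fun z => ?_))
        refine le_inf ?_ ?_
        · show ⊤ ≤ memv z (on (n + 1)) ⇨ (memv z (on n) ⊔ eqv z (on n))
          rw [memv_on_succ, himp_self]
        · show ⊤ ≤ (memv z (on n) ⊔ eqv z (on n)) ⇨ memv z (on (n + 1))
          rw [memv_on_succ, himp_self]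
      rw [h2] at h1
      have h3 := iInf_eq_top.1 h1 y
      have h4 : F.U (memv y (onT ℕ) ⇨ val (.ex (.and (.mem 0 2) (.all (.iff (.mem 0 1)
        (.or (.mem 0 2) (.eq 0 2)))))) (cons y fun _ => (onT ℕ : BSet B))) := by
        show F.U (memv y (chk on) ⇨ _)
        rw [h3]; exact F.top
      rw [F.himp_iff] at h4
      exact h4 hy
  sep φ v x := by
    obtain ⟨x, rfl⟩ := x.exists_rep
    obtain ⟨v, rfl⟩ := exists_lift F v
    obtain ⟨y, hy⟩ := exists_sep (val_congr1 φ v) x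
    refine ⟨Mod.mk F y, fun z => ?_⟩
    obtain ⟨z, rfl⟩ := z.exists_rep
    rw [Mod.E_mk, hy, F.inf_iff, cons_mk, los]
    exact Iff.rfl
  repl φ v x h := by
    obtain ⟨x, rfl⟩ := x.exists_rep
    obtain ⟨v, rfl⟩ := exists_lift F v
    have hsat : ∀ a b : BSet B, Sat (Mod.E F) φ (cons (Mod.mk F b) (cons (Mod.mk F a)
        fun i => Mod.mk F (v i))) ↔ F.U (val φ (cons b (cons a v))) := by
      intro a b
      rw [cons_mk, cons_mk, los]
    obtain ⟨y, hy⟩ := exists_coll (fun a b => val φ (cons b (cons a v)))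
      (fun z => val_congr2 φ v z) x
    have hQ : Congr (fun b => ⨆ a, memv a x ⊓ val φ (cons b (cons a v))) := by
      refine Congr.iSup fun a => ?_
      intro b b'
      refine le_inf (inf_le_right.trans inf_le_left) ?_
      exact (inf_le_inf_left _ inf_le_right).trans (val_congr1 φ (cons a v) b b')
    obtain ⟨y2, hy2⟩ := exists_sep hQ y
    refine ⟨Mod.mk F y2, fun b => ?_⟩
    obtain ⟨b, rfl⟩ := b.exists_rep
    rw [Mod.E_mk, hy2, F.inf_iff]
    constructor
    · rintro ⟨_, h2⟩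
      have hQ' : Congr (fun a => memv a x ⊓ val φ (cons b (cons a v))) :=
        (Congr.mem_right x).inf (val_congr2 φ v b)
      obtain ⟨a, ha⟩ := F.exists_of_iSup hQ' h2
      rw [F.inf_iff] at ha
      exact ⟨Mod.mk F a, ha.1, (hsat a b).2 ha.2⟩
    · rintro ⟨a, ha, hab⟩
      obtain ⟨a, rfl⟩ := a.exists_rep
      rw [Mod.E_mk] at ha
      rw [hsat] at hab
      refine ⟨?_, F.mono (le_iSup (fun a => memv a x ⊓ val φ (cons b (cons a v))) a)
        (F.inf_iff.2 ⟨ha, hab⟩)⟩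
      have h1 : F.U (⨆ z, memv z y ⊓ val φ (cons z (cons a v))) :=
        F.mono (hy a) (F.inf_iff.2 ⟨ha, F.mono (le_iSup
          (fun z => val φ (cons z (cons a v))) b) hab⟩)
      obtain ⟨z, hz⟩ := F.exists_of_iSup ((Congr.mem_right y).inf (val_congr1 φ (cons a v))) h1
      rw [F.inf_iff] at hz
      obtain ⟨b', _, hb'⟩ := h (Mod.mk F a) ha
      have e1 := hb' _ ((hsat a b).2 hab)
      have e2 := hb' _ ((hsat a z).2 hz.2)
      have e3 : F.U (eqv z b) := Mod.mk_eq.1 (e2.trans e1.symm)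
      exact F.mono (memv_congr_left z b y) (F.inf_iff.2 ⟨e3, hz.1⟩)
  choice x hne hdis := by
    obtain ⟨x, rfl⟩ := x.exists_rep
    obtain ⟨c, hc1, hc2⟩ := exists_choice x
    refine ⟨Mod.mk F c, fun y hy => ?_⟩
    obtain ⟨y, rfl⟩ := y.exists_rep
    obtain ⟨z, hz⟩ := hne _ hy
    obtain ⟨z, rfl⟩ := z.exists_rep
    have h1 : F.U (⨆ z, memv z y ⊓ memv z c) :=
      F.mono (hc1 y) (F.inf_iff.2 ⟨hy, F.mono (le_iSup (fun z => memv z y) z) hz⟩)
    obtain ⟨w, hw⟩ := F.exists_of_iSup ((Congr.mem_right y).inf (Congr.mem_right c)) h1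
    rw [F.inf_iff] at hw
    refine ⟨Mod.mk F w, hw, fun w' hw' => ?_⟩
    obtain ⟨w', rfl⟩ := w'.exists_rep
    rw [Mod.mk_eq]
    refine F.mono (hc2 y w' w) ?_
    simp only [F.inf_iff]
    refine ⟨⟨⟨hy, hw'⟩, hw⟩, ?_⟩
    have h2 := los F (.all (.all (.all (.imp (.and (.and (.and (.mem 2 3) (.mem 1 3)) (.mem 0 2))
      (.mem 0 1)) (.eq 2 1))))) (fun _ => x)
    refine h2.1 ?_
    rintro y₁ y₂ z ⟨⟨⟨a1, a2⟩, a3⟩, a4⟩
    exact hdis y₁ y₂ z a1 a2 a3 a4

end

end Pool.Agent.BVM
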