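import Pool.Agent.BVM.GoodFam

/-!
# The generic colourings form a bad family in the quotient models
-/

namespace Pool.Agent.BVM

open Pool.Agent.LadderTree Pool.Agent.Forcing

set_option linter.unusedSectionVars false

section

variable {Ω I : Type} [LinearOrder Ω] [LinearOrder I] [WellFoundedLT I] [WellFoundedLT Ω]
  [Omega1 Ω]

/-- a ladder system of the ground model -/
structure IsLad (C : Ω → ℕ → Ω) : Prop where
  lt : ∀ α, IsLim α → ∀ k, C α k < α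
  mono : ∀ α, IsLim α → StrictMono (C α)
  cof : ∀ α, IsLim α → ∀ γ, γ < α → ∃ k, γ < C α k

/-- the value of the generic colouring at `α` -/
noncomputable def gI (C : Ω → ℕ → Ω) (i : I) (α : Ω) : BSet (RO (PP Ω I)) :=
  relN (fun k : ℕ => on (C α k)) (on : ℕ → _) (CH i α)

/-- the generic colouring -/
noncomputable def fI (C : Ω → ℕ → Ω) (i : I) : BSet (RO (PP Ω I)) :=
  relN (fun a : {α : Ω // IsLim α} => on a.1) (fun a => gI C i a.1) fun a b => tv (a = b)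

theorem Rel_fI (C : Ω → ℕ → Ω) (i : I) {α : Ω} (hα : IsLim α) (F : UF (RO (PP Ω I))) :
    Rel (Mod.E F) (Mod.mk F (fI C i)) (Mod.mk F (on α)) (Mod.mk F (gI C i α)) := by
  rw [Rel_mk, fI, memv_relN]
  refine F.mono (le_iSup_of_le (⟨α, hα⟩ : {α : Ω // IsLim α})
    (le_iSup_of_le (⟨α, hα⟩ : {α : Ω // IsLim α}) ?_)) F.top
  rw [tv_true rfl, eqv_refl, eqv_refl, inf_top_eq, inf_top_eq]

theorem disc_C {C : Ω → ℕ → Ω} (hC : IsLad C) {α : Ω} (hα : IsLim α) :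
    Disc (fun k : ℕ => (on (C α k) : BSet (RO (PP Ω I)))) :=
  disc_on.comp (hC.mono α hα).injective

theorem ladder_C {C : Ω → ℕ → Ω} (hC : IsLad C) {α : Ω} (hα : IsLim α)
    (G : UF (RO (PP Ω I))) :
    Ladder (Mod.E G) (Mod.mk G (onT ℕ)) (Mod.mk G (on α))
      (Mod.mk G (chk fun k : ℕ => on (C α k))) := by
  have hdC : Disc (fun k : ℕ => (on (C α k) : BSet (RO (PP Ω I)))) := disc_C hC hα
  refine ⟨fun x hx => ?_, fun x hx => ?_,
    Mod.mk G (relN (on : ℕ → _) (fun k : ℕ => on (C α k)) fun k k' => tv (k = k')), ?_,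
      fun n m x y hnm h1 h2 => ?_, fun x => ⟨fun hx => ?_, fun hx => ?_⟩⟩
  · exact ball_chk (fun k : ℕ => on (C α k)) (.mem 0 1) (fun _ => on α) ⊤
      (fun G' _ k => E_on (hC.lt α hα k) G') G G.top x hx
  · rw [on_def α] at hx
    refine ball_chk (fun y : Set.Iio α => on y.1) (.ex (.and (.mem 0 2) (.mem 1 0)))
      (fun _ => chk fun k : ℕ => on (C α k)) ⊤ (fun G' _ y => ?_) G G.top x hx
    obtain ⟨k, hk⟩ := hC.cof α hα y.1 y.2
    exact ⟨Mod.mk G' (on (C α k)), E_chk (fun k : ℕ => on (C α k)) k G', E_on hk G'⟩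
  · refine funOn_relN disc_on (fun a => ?_) (fun a b b' => ?_) G
    · rw [tv_iSup]
      exact tv_true ⟨_, rfl⟩
    · rw [tv_inf, hdC]
      by_cases h : a = b ∧ a = b'
      · rw [tv_true (h.1.symm.trans h.2)]; exact le_top
      · rw [tv_false h]; exact bot_le
  · obtain ⟨hn, hx⟩ := relN_dom h1
    obtain ⟨hm, hy⟩ := relN_dom h2
    refine ball4_chk (on : ℕ → _) (on : ℕ → _) (fun k : ℕ => on (C α k))
      (fun k : ℕ => on (C α k)) (.imp (.mem 3 2) (.imp (fRel 4 3 1) (.imp (fRel 4 2 0)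
        (.mem 1 0)))) (fun _ => relN (on : ℕ → _) (fun k : ℕ => on (C α k))
        fun k k' => tv (k = k')) ⊤ (fun G' _ n m x y => ?_) G G.top n m x y hn hm hx hy hnm h1 h2
    intro k1 k2 k3
    have k1' : n < m := (E_on_iff G').1 k1
    have k2' := (Rel_disc disc_on hdC _ n x G').1 k2
    have k3' := (Rel_disc disc_on hdC _ m y G').1 k3
    rw [G'.tv_iff] at k2' k3'
    subst k2'
    subst k3'
    exact E_on (hC.mono α hα k1') G'
  · refine ball_chk (fun k : ℕ => on (C α k)) (.ex (fRel 2 0 1))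
      (fun _ => relN (on : ℕ → _) (fun k : ℕ => on (C α k))
        fun k k' => tv (k = k')) ⊤ (fun G' _ k => ?_) G G.top x hx
    exact ⟨Mod.mk G' (on k), (Rel_disc disc_on hdC _ k k G').2 (G'.tv_iff.2 rfl)⟩
  · obtain ⟨n, hn⟩ := hx
    exact (relN_dom hn).2

theorem fun_fI (C : Ω → ℕ → Ω) (i : I) (G : UF (RO (PP Ω I))) (x y y' : Mod G)
    (h : Rel (Mod.E G) (Mod.mk G (fI C i)) x y) (h' : Rel (Mod.E G) (Mod.mk G (fI C i)) x y') :
    y' = y := by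
  have hd : Disc (fun a : {α : Ω // IsLim α} => (on a.1 : BSet (RO (PP Ω I)))) :=
    disc_on.comp Subtype.val_injective
  unfold fI at h h'
  refine fun_relN hd (c := ⊤) (fun a b b' => ?_) G G.top x y y' h h'
  rw [top_inf_eq, tv_inf]
  by_cases h : a = b ∧ a = b'
  · rw [h.1.symm.trans h.2, eqv_refl]; exact le_top
  · rw [tv_false h]; exact bot_le

theorem lsc1_fI {C : Ω → ℕ → Ω} (hC : IsLad C) (i : I) {α : Ω} (hα : IsLim α)
    (G : UF (RO (PP Ω I))) :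
    ∃ g, (Rel (Mod.E G) (Mod.mk G (fI C i)) (Mod.mk G (on α)) g ∧
      ∀ g', Rel (Mod.E G) (Mod.mk G (fI C i)) (Mod.mk G (on α)) g' → g' = g) ∧
      ∃ c, Ladder (Mod.E G) (Mod.mk G (onT ℕ)) (Mod.mk G (on α)) c ∧ FunOn (Mod.E G) g c ∧
        ∀ x n, Rel (Mod.E G) g x n → Mod.E G n (Mod.mk G (onT ℕ)) := by
  refine ⟨Mod.mk G (gI C i α), ⟨Rel_fI C i hα G, fun g' hg' => ?_⟩,
    Mod.mk G (chk fun k : ℕ => on (C α k)), ladder_C hC hα G, ?_, fun x n hn => ?_⟩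
  · exact fun_fI C i G _ _ _ (Rel_fI C i hα G) hg'
  · refine funOn_relN (disc_C hC hα) (fun a => CH_tot i α a) (fun a b b' => ?_) G
    rw [eqv_on]
    exact CH_fun i α a b b'
  · exact (relN_dom hn).2

theorem lsc_fI {C : Ω → ℕ → Ω} (hC : IsLad C) (i : I) (F : UF (RO (PP Ω I))) :
    LSC (Mod.E F) (Mod.mk F (onT ℕ)) (Mod.mk F (onT Ω)) (Mod.mk F (fI C i)) := by
  constructor
  · intro z hz
    obtain ⟨z, rfl⟩ := z.exists_rep
    rw [Mod.E_mk, fI, memv_relN'] at hz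
    have h1 : (⨆ a : {α : Ω // IsLim α}, ⨆ b : {α : Ω // IsLim α}, (tv (a = b) : RO (PP Ω I)) ⊓
        eqv z (op (on a.1) (gI C i b.1))) ≤ val (.ex (.ex (.and (.and (.mem 1 3) (fLimit 1))
          (fOPair 2 1 0)))) (cons z fun _ => onT Ω) := by
      refine iSup_le fun a => iSup_le fun b => ?_
      refine le_iSup_of_le (on a.1) (le_iSup_of_le (gI C i b.1) (le_inf ?_ ?_))
      · refine le_top.trans (le_val fun G _ => ?_)
        exact ⟨E_onT a.1 G, limit_on a.2 G⟩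
      · rw [val_fOPair]
        exact inf_le_right
    exact (los F (.ex (.ex (.and (.and (.mem 1 3) (fLimit 1)) (fOPair 2 1 0))))
      (cons z fun _ => onT Ω)).2 (F.mono h1 hz)
  · intro α hα hlim
    refine ball_chk (on : Ω → _) (.imp (fLimit 0) (fLSC1 1 0 2)) (cons (onT ℕ) fun _ => fI C i) ⊤
      (fun G _ α h0 => ?_) F F.top α hα hlim
    exact lsc1_fI hC i (isLim_of_limit h0) G

/-- bounded existential quantifiers over `ω` -/
theorem le_iSup_on_nat {B : Type} [CompleteBooleanAlgebra B] (φ : Fml) (v : ℕ → BSet B) (d : B)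
    (H : ∀ G : UF B, G.U d → ∃ x, Mod.E G x (Mod.mk G (onT ℕ)) ∧
      Sat (Mod.E G) φ (cons x fun i => Mod.mk G (v i))) :
    d ≤ ⨆ x : ℕ, val φ (cons (on x) v) := by
  rw [← chk_bex (nm := (on : ℕ → _)) (val_congr1 φ v)]
  refine le_of_uf fun G hG => ?_
  obtain ⟨x, h1, h2⟩ := H G hG
  obtain ⟨x, rfl⟩ := x.exists_rep
  rw [cons_mk, los] at h2
  exact G.mono (le_iSup (fun x => memv x (chk on) ⊓ val φ (cons x v)) x) (G.inf h1 h2)

/-- bounded existential quantifiers over an ordinal -/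
theorem le_iSup_on_lt {B : Type} [CompleteBooleanAlgebra B] (β : Ω) (φ : Fml)
    (v : ℕ → BSet B) (d : B)
    (H : ∀ G : UF B, G.U d → ∃ x, Mod.E G x (Mod.mk G (on β)) ∧
      Sat (Mod.E G) φ (cons x fun i => Mod.mk G (v i))) :
    d ≤ ⨆ x : Set.Iio β, val φ (cons (on x.1) v) := by
  rw [← chk_bex (nm := fun x : Set.Iio β => on x.1) (val_congr1 φ v), ← on_def]
  refine le_of_uf fun G hG => ?_
  obtain ⟨x, h1, h2⟩ := H G hG
  obtain ⟨x, rfl⟩ := x.exists_rep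
  rw [cons_mk, los] at h2
  exact G.mono (le_iSup (fun x => memv x (on β) ⊓ val φ (cons x v)) x) (G.inf h1 h2)

/-- `(x₀, x₁, x₂)` is an Aronszajn tree on which all members of `x₅` have full uniformizations
(`x₃ = ω`, `x₄ = ω₁`) -/
def fBad0 : Fml := .and (fAron 3 4 0 1 2) (.all (.imp (.mem 0 6) (.ex (fUnif 6 2 3 4 1 0))))

theorem sat_fBad0 {M : Type*} {E : M → M → Prop} {v : ℕ → M} : Sat E fBad0 v ↔
    Aronszajn E (v 3) (v 4) (v 0) (v 1) (v 2) ∧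
      ∀ f, E f (v 5) → ∃ φ, FullUnif E (v 4) (v 0) (v 1) (v 2) f φ := by
  rw [← sat_fAron]
  exact Iff.rfl

/-- `x₀` enumerates the level `x₃` with respect to the height function `x₁` (`x₂ = ω`) -/
def fEn : Fml := .and (.all (.all (.all (.imp (fRel 3 2 1) (.imp (fRel 3 2 0) (.eq 0 1))))))
  (.all (.imp (fRel 2 0 4) (.ex (.and (.mem 0 4) (fRel 2 0 1)))))

theorem sat_fEn {M : Type*} {E : M → M → Prop} {v : ℕ → M} : Sat E fEn v ↔
    (∀ x y y', Rel E (v 0) x y → Rel E (v 0) x y' → y' = y) ∧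
      ∀ t, Rel E (v 1) t (v 3) → ∃ n, E n (v 2) ∧ Rel E (v 0) n t := Iff.rfl

/-- some node with number `x₀` (in the enumeration `x₁`) has height `x₃` (height function
`x₂`) -/
def fNd : Fml := .ex (.and (fRel 2 1 0) (fRel 3 0 4))

theorem sat_fNd {M : Type*} {E : M → M → Prop} {v : ℕ → M} : Sat E fNd v ↔
    ∃ t, Rel E (v 1) (v 0) t ∧ Rel E (v 2) t (v 3) := Iff.rfl

/-- the node with number `x₀` at level `x₂` is below the node with number `x₄` at level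
`x₅` -/
def fLt : Fml := .ex (.ex (.and (.and (fRel 3 2 1) (fRel 9 1 4))
  (.and (.and (fRel 5 6 0) (fRel 9 0 7)) (fRel 8 1 0))))

theorem sat_fLt {M : Type*} {E : M → M → Prop} {v : ℕ → M} : Sat E fLt v ↔
    ∃ s t, (Rel E (v 1) (v 0) s ∧ Rel E (v 7) s (v 2)) ∧
      (Rel E (v 3) (v 4) t ∧ Rel E (v 7) t (v 5)) ∧ Rel E (v 6) s t := Iff.rfl

/-- the node with number `x₁` at level `x₂` has label `x₃` -/
def fPh : Fml := .ex (.and (.and (fRel 1 2 0) (fRel 6 0 3)) (fRel 5 0 4))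

theorem sat_fPh {M : Type*} {E : M → M → Prop} {v : ℕ → M} : Sat E fPh v ↔
    ∃ s, (Rel E (v 0) (v 1) s ∧ Rel E (v 5) s (v 2)) ∧ Rel E (v 4) s (v 3) := Iff.rfl

/-- the generic colourings form a bad family -/
theorem bad_fam [CofOmega1 I] (bd : ∀ s : Ω × ℕ × Ω × ℕ → I, ∃ i, ∀ x, s x ≤ i)
    {C : Ω → ℕ → Ω} (hC : IsLad C) (F : UF (RO (PP Ω I))) :
    Bad (Mod.E F) (Mod.mk F (onT ℕ)) (Mod.mk F (onT Ω)) (Mod.mk F (chk fun i : I => fI C i)) := by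
  constructor
  · intro f hf
    exact ball_chk (fun i : I => fI C i) (fLSC 1 2 0) (cons (onT ℕ) fun _ => onT Ω) ⊤
      (fun G _ i => lsc_fI hC i G) F F.top f hf
  rintro ⟨T, L, H, hA, hU⟩
  obtain ⟨T, rfl⟩ := T.exists_rep
  obtain ⟨L, rfl⟩ := L.exists_rep
  obtain ⟨H, rfl⟩ := H.exists_rep
  obtain ⟨b, hb⟩ : ∃ b : RO (PP Ω I), b = val fBad0 (cons T (cons L (cons H (cons (onT ℕ)
    (cons (onT Ω) fun _ => chk fun i : I => fI C i))))) := ⟨_, rfl⟩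
  have hbG : ∀ G : UF (RO (PP Ω I)), G.U b ↔ Aronszajn (Mod.E G) (Mod.mk G (onT ℕ))
      (Mod.mk G (onT Ω)) (Mod.mk G T) (Mod.mk G L) (Mod.mk G H) ∧
      ∀ f, Mod.E G f (Mod.mk G (chk fun i : I => fI C i)) → ∃ φ,
        FullUnif (Mod.E G) (Mod.mk G (onT Ω)) (Mod.mk G T) (Mod.mk G L) (Mod.mk G H) f φ := by
    intro G
    rw [hb, ← los, sat_fBad0]
    exact Iff.rfl
  have hFb : F.U b := (hbG F).2 ⟨hA, hU⟩
  have hbne : b ≠ ⊥ := by
    rintro rfl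
    exact F.bot hFb
  obtain ⟨p0, hp0⟩ := exists_forc hbne
  -- enumerations of the levels
  have hex : ∀ α : Ω, ∃ e, b ≤ val fEn (cons e (cons H (cons (onT ℕ) fun _ => on α))) := by
    intro α
    refine exists_of_le_ex (le_val fun G hG => ?_)
    obtain ⟨l, h1, _, e, h2, h3⟩ := ((hbG G).1 hG).1.level _ (E_onT α G)
    exact ⟨e, h2, fun t ht => h3 t ((h1 t).2 ht)⟩
  choose e he using hex
  have heG : ∀ (α : Ω) (G : UF (RO (PP Ω I))), G.U b →
      (∀ x y y', Rel (Mod.E G) (Mod.mk G (e α)) x y → Rel (Mod.E G) (Mod.mk G (e α)) x y' →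
        y' = y) ∧ ∀ t, Rel (Mod.E G) (Mod.mk G H) t (Mod.mk G (on α)) →
          ∃ n, Mod.E G n (Mod.mk G (onT ℕ)) ∧ Rel (Mod.E G) (Mod.mk G (e α)) n t := by
    intro α G hG
    have h1 := (los G _ _).2 (G.mono (he α) hG)
    rw [sat_fEn] at h1
    exact h1
  -- the coded tree
  let N : Ω → ℕ → RO (PP Ω I) := fun α n =>
    val fNd (cons (on n) (cons (e α) (cons H fun _ => on α)))
  let Lf : Ω → ℕ → Ω → ℕ → RO (PP Ω I) := fun ξ m α n =>
    val fLt (cons (on m) (cons (e ξ) (cons (on ξ) (cons (e α) (cons (on n) (cons (on α)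
      (cons L fun _ => H)))))))
  have hN : ∀ (α : Ω) (n : ℕ) (G : UF (RO (PP Ω I))), G.U (N α n) ↔
      ∃ t, Rel (Mod.E G) (Mod.mk G (e α)) (Mod.mk G (on n)) t ∧
        Rel (Mod.E G) (Mod.mk G H) t (Mod.mk G (on α)) := by
    intro α n G
    rw [← los, sat_fNd]
    exact Iff.rfl
  have hLf : ∀ (ξ : Ω) (m : ℕ) (α : Ω) (n : ℕ) (G : UF (RO (PP Ω I))), G.U (Lf ξ m α n) ↔
      ∃ s t, (Rel (Mod.E G) (Mod.mk G (e ξ)) (Mod.mk G (on m)) s ∧
        Rel (Mod.E G) (Mod.mk G H) s (Mod.mk G (on ξ))) ∧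
        (Rel (Mod.E G) (Mod.mk G (e α)) (Mod.mk G (on n)) t ∧
        Rel (Mod.E G) (Mod.mk G H) t (Mod.mk G (on α))) ∧
        Rel (Mod.E G) (Mod.mk G L) s t := by
    intro ξ m α n G
    rw [← los, sat_fLt]
    exact Iff.rfl
  choose i0 hi0 using fun x : Ω × ℕ × Ω × ℕ => exists_meas (Lf x.1 x.2.1 x.2.2.1 x.2.2.2)
  obtain ⟨i, hi⟩ := bd i0
  -- the uniformization
  obtain ⟨φ, hφ⟩ : ∃ φ, b ≤ val (fUnif 5 2 3 4 1 0)
      (cons φ (cons (fI C i) (cons T (cons L (cons H fun _ => onT Ω))))) := by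
    refine exists_of_le_ex (le_val fun G hG => ?_)
    exact ((hbG G).1 hG).2 _ (E_chk (fun i : I => fI C i) i G)
  have hφG : ∀ G : UF (RO (PP Ω I)), G.U b → FullUnif (Mod.E G) (Mod.mk G (onT Ω))
      (Mod.mk G T) (Mod.mk G L) (Mod.mk G H) (Mod.mk G (fI C i)) (Mod.mk G φ) := by
    intro G hG
    have h1 := (los G _ _).2 (G.mono hφ hG)
    rw [sat_fUnif] at h1
    exact h1
  let ph : Ω → ℕ → ℕ → RO (PP Ω I) := fun ξ m c =>
    val fPh (cons (e ξ) (cons (on m) (cons (on ξ) (cons (on c) (cons φ fun _ => H)))))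
  have hph : ∀ (ξ : Ω) (m c : ℕ) (G : UF (RO (PP Ω I))), G.U (ph ξ m c) ↔
      ∃ s, (Rel (Mod.E G) (Mod.mk G (e ξ)) (Mod.mk G (on m)) s ∧
        Rel (Mod.E G) (Mod.mk G H) s (Mod.mk G (on ξ))) ∧
        Rel (Mod.E G) (Mod.mk G φ) s (Mod.mk G (on c)) := by
    intro ξ m c G
    rw [← los, sat_fPh]
    exact Iff.rfl
  refine bad_coh (C := C) (fun α hα => ⟨hC.lt α hα, fun k => hC.mono α hα (Nat.lt_succ_self k),
    hC.cof α hα⟩) i N Lf (fun ξ m α n => (hi0 (ξ, m, α, n)).mono (hi _)) ph p0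
    (fun α => ?_) (fun α n ξ hξ => ?_) (fun ξ m c c' => ?_) (fun α hα n => ?_)
  · -- levels are nonempty
    refine forc_le_iff.1 ?_ p0 hp0
    refine le_iSup_on_nat fNd (cons (e α) (cons H fun _ => on α)) b (fun G hG => ?_)
    obtain ⟨l, h1, ⟨t, ht⟩, _⟩ := ((hbG G).1 hG).1.level _ (E_onT α G)
    have h2 := (h1 t).1 ht
    obtain ⟨n, hn, hn'⟩ := (heG α G hG).2 t h2
    exact ⟨n, hn, t, hn', h2⟩
  · -- predecessors
    refine forc_le_iff.1 ?_ p0 hp0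
    rw [le_himp_iff]
    refine le_iSup_on_nat fLt (cons (e ξ) (cons (on ξ) (cons (e α) (cons (on n) (cons (on α)
      (cons L fun _ => H)))))) (b ⊓ N α n) (fun G hG => ?_)
    rw [G.inf_iff, hN] at hG
    obtain ⟨hG, t, h1, h2⟩ := hG
    obtain ⟨s, ⟨h3, h4⟩, _⟩ := ((hbG G).1 hG).1.pred _ _ _ h2 (E_on hξ G)
    obtain ⟨m, hm, hm'⟩ := (heG ξ G hG).2 s h4
    exact ⟨m, hm, s, t, ⟨hm', h4⟩, ⟨h1, h2⟩, h3⟩
  · -- labels are unique
    refine forc_le_iff.1 ?_ p0 hp0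
    rw [le_himp_iff, le_himp_iff]
    refine le_of_uf fun G hG => ?_
    rw [G.inf_iff, G.inf_iff, hph, hph] at hG
    obtain ⟨⟨hG, s, ⟨h1, _⟩, h2⟩, s', ⟨h3, _⟩, h4⟩ := hG
    have h5 := (heG ξ G hG).1 _ _ _ h1 h3
    subst h5
    have h6 := (hφG G hG).2.1.eq h2 h4
    rw [Mod.mk_eq, eqv_on] at h6
    exact h6
  · -- uniformization
    refine forc_le_iff.1 ?_ p0 hp0
    rw [le_himp_iff]
    refine sup_elim (f := fun t => val (.and (fRel 2 1 0) (fRel 3 0 4))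
      (cons t (cons (on n) (cons (e α) (cons H fun _ => on α))))) inf_le_right fun t => ?_
    obtain ⟨Γ, hΓ⟩ : ∃ Γ, Γ = b ⊓ N α n ⊓ val (.and (fRel 2 1 0) (fRel 3 0 4))
      (cons t (cons (on n) (cons (e α) (cons H fun _ => on α)))) := ⟨_, rfl⟩
    have hΓG : ∀ G : UF (RO (PP Ω I)), G.U Γ → G.U b ∧
        Rel (Mod.E G) (Mod.mk G (e α)) (Mod.mk G (on n)) (Mod.mk G t) ∧
        Rel (Mod.E G) (Mod.mk G H) (Mod.mk G t) (Mod.mk G (on α)) := by
      intro G hG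
      rw [hΓ, G.inf_iff, G.inf_iff] at hG
      exact ⟨hG.1.1, (los G _ _).2 hG.2⟩
    rw [← hΓ]
    have h1 : Γ ≤ ⨆ γ : Set.Iio α, val (fUnif0 4 3 5 2 1 0) (cons (on γ.1) (cons (gI C i α)
        (cons (on α) (cons t (cons H (cons L fun _ => φ)))))) := by
      refine le_iSup_on_lt α _ _ _ (fun G hG => ?_)
      obtain ⟨hb, h1, h2⟩ := hΓG G hG
      obtain ⟨β, hβ, h3⟩ := (hφG G hb).2.2 _ _ _ h2 (limit_on hα G) (Rel_fI C i hα G)
      exact ⟨β, hβ, hβ, h3⟩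
    refine sup_elim h1 fun γ => ?_
    refine le_iSup_of_le γ (le_iInf fun k => ?_)
    rw [le_himp_iff]
    refine le_iInf fun c => ?_
    rw [le_himp_iff]
    refine le_iInf fun m => ?_
    rw [le_himp_iff]
    refine le_of_uf fun G hG => ?_
    rw [G.inf_iff, G.inf_iff, G.inf_iff, G.inf_iff, hLf, G.tv_iff, ← los] at hG
    obtain ⟨⟨⟨⟨hG, h2⟩, h3⟩, h4⟩, s, t', ⟨h5, h6⟩, ⟨h7, h8⟩, h9⟩ := hG
    obtain ⟨hb, h10, h11⟩ := hΓG G hG
    have h12 := (heG α G hb).1 _ _ _ h10 h7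
    subst h12
    rw [hph]
    refine ⟨s, ⟨h5, h6⟩, ?_⟩
    exact h2.2 _ _ (E_on h3 G) ((Rel_disc (disc_C hC hα) disc_on (CH i α) k c G).2 h4) s h9 h6

end

end Pool.Agent.BVM
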