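import Mathlib

/-!
# Boolean valued sets
-/

namespace Pool.Agent.BVM

/-- Boolean valued sets -/
inductive BSet (B : Type) : Type 1
  | mk (α : Type) (A : α → BSet B) (b : α → B) : BSet B

section

variable {B : Type} [CompleteBooleanAlgebra B]

/-- elimination of a join -/
theorem sup_elim {ι : Sort*} {Γ c : B} {f : ι → B} (h : Γ ≤ ⨆ x, f x)
    (h' : ∀ x, Γ ⊓ f x ≤ c) : Γ ≤ c := by
  calc Γ = Γ ⊓ ⨆ x, f x := (inf_eq_left.2 h).symm
    _ = ⨆ x, Γ ⊓ f x := inf_iSup_eq _ _
    _ ≤ c := iSup_le h'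

/-- Boolean value of equality -/
def eqv : BSet B → BSet B → B
  | .mk _ A b, .mk _ C c => (⨅ a, b a ⇨ ⨆ x, c x ⊓ eqv (A a) (C x)) ⊓
      ⨅ x, c x ⇨ ⨆ a, b a ⊓ eqv (A a) (C x)

/-- Boolean value of membership -/
def memv (x : BSet B) : BSet B → B
  | .mk _ A b => ⨆ a, b a ⊓ eqv x (A a)

theorem eqv_mk {α γ : Type} (A : α → BSet B) (b : α → B) (C : γ → BSet B) (c : γ → B) :
    eqv (.mk α A b) (.mk γ C c) = (⨅ a, b a ⇨ ⨆ x, c x ⊓ eqv (A a) (C x)) ⊓
      ⨅ x, c x ⇨ ⨆ a, b a ⊓ eqv (A a) (C x) := rfl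

theorem memv_mk {α : Type} (x : BSet B) (A : α → BSet B) (b : α → B) :
    memv x (.mk α A b) = ⨆ a, b a ⊓ eqv x (A a) := rfl

theorem eqv_refl (x : BSet B) : eqv x x = ⊤ := by
  induction x with
  | mk α A b ih =>
    rw [eqv_mk, eq_top_iff]
    refine le_inf (le_iInf fun a => ?_) (le_iInf fun a => ?_)
    · rw [le_himp_iff, top_inf_eq]
      refine le_iSup_of_le a ?_
      rw [ih, inf_top_eq]
    · rw [le_himp_iff, top_inf_eq]
      refine le_iSup_of_le a ?_
      rw [ih, inf_top_eq]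

theorem eqv_symm (x y : BSet B) : eqv x y = eqv y x := by
  induction x generalizing y with
  | mk α A b ih =>
    obtain ⟨γ, C, c⟩ := y
    rw [eqv_mk, eqv_mk, inf_comm]
    congr 1
    · refine iInf_congr fun x => ?_
      congr 1
      exact iSup_congr fun a => by rw [ih]
    · refine iInf_congr fun x => ?_
      congr 1
      exact iSup_congr fun a => by rw [ih]

theorem eqv_left {α γ : Type} (A : α → BSet B) (b : α → B) (C : γ → BSet B) (c : γ → B)
    (a : α) : eqv (.mk α A b) (.mk γ C c) ⊓ b a ≤ ⨆ x, c x ⊓ eqv (A a) (C x) := by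
  rw [← le_himp_iff, eqv_mk]
  exact inf_le_left.trans (iInf_le _ a)

theorem eqv_right {α γ : Type} (A : α → BSet B) (b : α → B) (C : γ → BSet B) (c : γ → B)
    (x : γ) : eqv (.mk α A b) (.mk γ C c) ⊓ c x ≤ ⨆ a, b a ⊓ eqv (A a) (C x) := by
  rw [← le_himp_iff, eqv_mk]
  exact inf_le_right.trans (iInf_le _ x)

theorem eqv_trans (x y z : BSet B) : eqv x y ⊓ eqv y z ≤ eqv x z := by
  induction x generalizing y z with
  | mk α A b ih =>
    obtain ⟨γ, C, c⟩ := y
    obtain ⟨δ, D, d⟩ := z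
    rw [eqv_mk (C := D)]
    refine le_inf (le_iInf fun a => ?_) (le_iInf fun t => ?_)
    · rw [le_himp_iff]
      refine sup_elim (f := fun x => c x ⊓ eqv (A a) (C x)) ?_ fun x => ?_
      · exact (inf_le_inf_right _ inf_le_left).trans (eqv_left A b C c a)
      refine sup_elim (f := fun t => d t ⊓ eqv (C x) (D t)) ?_ fun t => ?_
      · refine le_trans ?_ (eqv_left C c D d x)
        exact le_inf (inf_le_left.trans (inf_le_left.trans inf_le_right))
          (inf_le_right.trans inf_le_left)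
      refine le_iSup_of_le t (le_inf (inf_le_right.trans inf_le_left) ?_)
      refine le_trans ?_ (ih a (C x) (D t))
      exact le_inf (inf_le_left.trans (inf_le_right.trans inf_le_right))
        (inf_le_right.trans inf_le_right)
    · rw [le_himp_iff]
      refine sup_elim (f := fun x => c x ⊓ eqv (C x) (D t)) ?_ fun x => ?_
      · exact (inf_le_inf_right _ inf_le_right).trans (eqv_right C c D d t)
      refine sup_elim (f := fun a => b a ⊓ eqv (A a) (C x)) ?_ fun a => ?_
      · refine le_trans ?_ (eqv_right A b C c x)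
        exact le_inf (inf_le_left.trans (inf_le_left.trans inf_le_left))
          (inf_le_right.trans inf_le_left)
      refine le_iSup_of_le a (le_inf (inf_le_right.trans inf_le_left) ?_)
      refine le_trans ?_ (ih a (C x) (D t))
      exact le_inf (inf_le_right.trans inf_le_right)
        (inf_le_left.trans (inf_le_right.trans inf_le_right))

theorem memv_congr_left (x y z : BSet B) : eqv x y ⊓ memv x z ≤ memv y z := by
  obtain ⟨α, A, b⟩ := z
  rw [memv_mk, memv_mk, inf_iSup_eq]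
  refine iSup_le fun a => le_iSup_of_le a ?_
  refine le_inf (inf_le_right.trans inf_le_left) ?_
  refine le_trans ?_ (eqv_trans y x (A a))
  rw [eqv_symm y x]
  exact inf_le_inf_left _ inf_le_right

theorem memv_congr_right (x y z : BSet B) : eqv y z ⊓ memv x y ≤ memv x z := by
  obtain ⟨α, A, b⟩ := y
  obtain ⟨γ, C, c⟩ := z
  refine sup_elim (f := fun a => b a ⊓ eqv x (A a)) inf_le_right fun a => ?_
  refine sup_elim (f := fun t => c t ⊓ eqv (A a) (C t)) ?_ fun t => ?_
  · refine le_trans ?_ (eqv_left A b C c a)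
    exact le_inf (inf_le_left.trans inf_le_left) (inf_le_right.trans inf_le_left)
  rw [memv_mk]
  refine le_iSup_of_le t (le_inf (inf_le_right.trans inf_le_left) ?_)
  refine le_trans ?_ (eqv_trans x (A a) (C t))
  exact le_inf (inf_le_left.trans (inf_le_right.trans inf_le_right))
    (inf_le_right.trans inf_le_right)

/-- elements of a name -/
theorem memv_self {α : Type} (A : α → BSet B) (b : α → B) (a : α) :
    b a ≤ memv (A a) (.mk α A b) := by
  rw [memv_mk]
  refine le_iSup_of_le a ?_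
  rw [eqv_refl, inf_top_eq]

/-- extensionality -/
theorem ext_le (x y : BSet B) : (⨅ z, (memv z x ⇨ memv z y) ⊓ (memv z y ⇨ memv z x)) ≤
    eqv x y := by
  obtain ⟨α, A, b⟩ := x
  obtain ⟨γ, C, c⟩ := y
  rw [eqv_mk]
  refine le_inf (le_iInf fun a => ?_) (le_iInf fun t => ?_)
  · rw [le_himp_iff]
    calc _ ≤ (memv (A a) (.mk α A b) ⇨ memv (A a) (.mk γ C c)) ⊓ memv (A a) (.mk α A b) :=
          inf_le_inf ((iInf_le _ (A a)).trans inf_le_left) (memv_self A b a)
      _ ≤ memv (A a) (.mk γ C c) := himp_inf_le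
  · rw [le_himp_iff]
    calc _ ≤ (memv (C t) (.mk γ C c) ⇨ memv (C t) (.mk α A b)) ⊓ memv (C t) (.mk γ C c) :=
          inf_le_inf ((iInf_le _ (C t)).trans inf_le_right) (memv_self C c t)
      _ ≤ memv (C t) (.mk α A b) := himp_inf_le
      _ = ⨆ a, b a ⊓ eqv (A a) (C t) := by
        rw [memv_mk]
        exact iSup_congr fun a => by rw [eqv_symm]

/-- congruent Boolean valued classes -/
def Congr (Q : BSet B → B) : Prop := ∀ x y, eqv x y ⊓ Q x ≤ Q y

theorem Congr.mem_right (z : BSet B) : Congr (fun x => memv x z) :=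
  fun x y => memv_congr_left x y z

/-- bounded existential quantifier -/
theorem Congr.bex {Q : BSet B → B} (hQ : Congr Q) {α : Type} (A : α → BSet B) (b : α → B) :
    (⨆ x, memv x (.mk α A b) ⊓ Q x) = ⨆ a, b a ⊓ Q (A a) := by
  refine le_antisymm (iSup_le fun x => ?_) (iSup_le fun a => ?_)
  · rw [memv_mk, iSup_inf_eq]
    refine iSup_le fun a => le_iSup_of_le a ?_
    refine le_inf (inf_le_left.trans inf_le_left) ?_
    refine le_trans ?_ (hQ x (A a))
    exact inf_le_inf_right _ inf_le_right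
  · refine le_iSup_of_le (A a) (inf_le_inf_right _ (memv_self A b a))

/-- bounded universal quantifier -/
theorem Congr.ball {Q : BSet B → B} (hQ : Congr Q) {α : Type} (A : α → BSet B) (b : α → B) :
    (⨅ x, memv x (.mk α A b) ⇨ Q x) = ⨅ a, b a ⇨ Q (A a) := by
  refine le_antisymm (le_iInf fun a => ?_) (le_iInf fun x => ?_)
  · exact (iInf_le _ (A a)).trans (himp_le_himp_right (memv_self A b a))
  · rw [le_himp_iff]
    refine sup_elim (f := fun a => b a ⊓ eqv x (A a)) inf_le_right fun a => ?_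
    refine le_trans ?_ (hQ (A a) x)
    rw [eqv_symm (A a) x]
    refine le_inf (inf_le_right.trans inf_le_right) ?_
    calc _ ≤ (b a ⇨ Q (A a)) ⊓ b a :=
          le_inf (inf_le_left.trans (inf_le_left.trans (iInf_le _ a)))
            (inf_le_right.trans inf_le_left)
      _ ≤ Q (A a) := himp_inf_le

/-- mixing of names -/
theorem exists_mix {ι : Type} (d : ι → B) (hd : ∀ i j, i ≠ j → d i ⊓ d j = ⊥)
    (x : ι → BSet B) : ∃ y, ∀ i, d i ≤ eqv y (x i) := by
  have hx : ∀ i, ∃ (α : Type) (A : α → BSet B) (b : α → B), x i = .mk α A b := fun i => by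
    obtain ⟨α, A, b⟩ := x i
    exact ⟨α, A, b, rfl⟩
  choose α A b hx using hx
  refine ⟨.mk (Σ i, α i) (fun s => A s.1 s.2) (fun s => d s.1 ⊓ b s.1 s.2), fun i => ?_⟩
  rw [hx i, eqv_mk]
  refine le_inf (le_iInf fun s => ?_) (le_iInf fun a => ?_)
  · obtain ⟨j, a⟩ := s
    rw [le_himp_iff]
    by_cases hij : i = j
    · subst hij
      refine le_iSup_of_le a ?_
      simp only
      rw [eqv_refl, inf_top_eq]
      exact inf_le_right.trans inf_le_right
    · rw [← inf_assoc]
      simp only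
      rw [hd i j hij, bot_inf_eq]
      exact bot_le
  · rw [le_himp_iff]
    refine le_iSup_of_le ⟨i, a⟩ ?_
    simp only
    rw [eqv_refl, inf_top_eq]

/-- first occurrences -/
theorem sup_first {ι : Type} (r : ι → ι → Prop) (hwf : WellFounded r) (c : ι → B) :
    ⨆ i, c i = ⨆ i, c i ⊓ (⨆ j, ⨆ _ : r j i, c j)ᶜ := by
  refine le_antisymm (iSup_le fun i => ?_) (iSup_mono fun i => inf_le_left)
  induction i using hwf.induction with
  | _ i ih =>
    have h1 : c i ≤ (c i ⊓ (⨆ j, ⨆ _ : r j i, c j)ᶜ) ⊔ ⨆ j, ⨆ _ : r j i, c j := by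
      calc c i = c i ⊓ ((⨆ j, ⨆ _ : r j i, c j)ᶜ ⊔ ⨆ j, ⨆ _ : r j i, c j) := by
            rw [compl_sup_eq_top, inf_top_eq]
        _ = (c i ⊓ (⨆ j, ⨆ _ : r j i, c j)ᶜ) ⊔ (c i ⊓ ⨆ j, ⨆ _ : r j i, c j) := inf_sup_left _ _ _
        _ ≤ _ := sup_le_sup_left inf_le_right _
    exact h1.trans (sup_le (le_iSup (fun i => c i ⊓ (⨆ j, ⨆ _ : r j i, c j)ᶜ) i)
      (iSup₂_le fun j hj => ih j hj))

/-- disjointification -/
theorem exists_disj {ι : Type} (c : ι → B) : ∃ d : ι → B, (∀ i, d i ≤ c i) ∧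
    (∀ i j, i ≠ j → d i ⊓ d j = ⊥) ∧ ⨆ i, d i = ⨆ i, c i := by
  classical
  let r : ι → ι → Prop := WellOrderingRel
  have hwf : WellFounded r := WellOrderingRel.isWellOrder.wf
  let d : ι → B := fun i => c i ⊓ (⨆ j, ⨆ _ : r j i, c j)ᶜ
  have hdc : ∀ i, d i ≤ c i := fun i => inf_le_left
  have key : ∀ i j, r j i → d i ⊓ d j = ⊥ := by
    intro i j hji
    rw [← le_bot_iff]
    calc d i ⊓ d j ≤ (c j)ᶜ ⊓ c j := by
          refine inf_le_inf (inf_le_right.trans (compl_le_compl ?_)) (hdc j)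
          exact le_iSup₂_of_le j hji le_rfl
      _ ≤ ⊥ := by rw [compl_inf_self]
  refine ⟨d, hdc, fun i j hij => ?_, le_antisymm (iSup_mono hdc) (iSup_le fun i => ?_)⟩
  · rcases @trichotomous _ r (inferInstance) i j with h | h | h
    · rw [inf_comm]; exact key j i h
    · exact absurd h hij
    · exact key i j h
  · exact (le_iSup c i).trans (sup_first r hwf c).le

/-- fullness -/
theorem Congr.full {Q : BSet B → B} (hQ : Congr Q) : ∃ x, Q x = ⨆ x, Q x := by
  classical
  have hx : ∀ c : Set.range Q, ∃ x, Q x = c.1 := fun c => c.2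
  choose x hx using hx
  obtain ⟨d, h1, h2, h3⟩ := exists_disj (fun c : Set.range Q => c.1)
  obtain ⟨y, hy⟩ := exists_mix d h2 x
  refine ⟨y, le_antisymm (le_iSup Q y) ?_⟩
  have h4 : (⨆ x, Q x) ≤ ⨆ c : Set.range Q, c.1 :=
    iSup_le fun z => le_iSup_of_le (⟨Q z, z, rfl⟩ : Set.range Q) le_rfl
  rw [← h3] at h4
  refine h4.trans (iSup_le fun c => ?_)
  refine le_trans ?_ (hQ (x c) y)
  rw [eqv_symm]
  exact le_inf (hy c) ((h1 c).trans (hx c).ge)

/-- small joins suffice -/
theorem exists_small (Q : BSet B → B) : ∃ x : B → BSet B, (⨆ z, Q z) ≤ ⨆ c, Q (x c) := by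
  classical
  refine ⟨fun c => if h : ∃ z, Q z = c then h.choose else .mk Empty (fun e => e.elim)
    (fun e => e.elim), iSup_le fun z => le_iSup_of_le (Q z) ?_⟩
  have h : ∃ z', Q z' = Q z := ⟨z, rfl⟩
  simp only [dif_pos h]
  exact h.choose_spec.ge

end

end Pool.Agent.BVM
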