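import Pool.Agent.BVM.Eval

/-!
# Ordinals and cardinals in the quotient models
-/

namespace Pool.Agent.BVM

open Pool.Agent.LadderTree

section

variable {B : Type} [CompleteBooleanAlgebra B]

theorem tran_of {x : BSet B} (h : ∀ y z, memv y x ⊓ memv z y ≤ memv z x) (F : UF B) :
    Tran (Mod.E F) (Mod.mk F x) := by
  intro y z hy hz
  obtain ⟨y, rfl⟩ := y.exists_rep
  obtain ⟨z, rfl⟩ := z.exists_rep
  exact F.mono (h y z) (F.inf hy hz)

section

variable {X : Type} [LinearOrder X] [WellFoundedLT X]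

theorem memv_on_trans (x : X) (y z : BSet B) :
    memv y (on x) ⊓ memv z y ≤ memv z (on x) := by
  rw [on_def x, memv_chk, memv_chk, iSup_inf_eq]
  refine iSup_le fun a => ?_
  refine (memv_congr_right z y (on a.1)).trans ?_
  rw [on_def a.1, memv_chk]
  exact iSup_le fun b => le_iSup_of_le (⟨b.1, b.2.trans a.2⟩ : Set.Iio x) le_rfl

theorem memv_onT_trans (y z : BSet B) : memv y (onT X) ⊓ memv z y ≤ memv z (onT X) := by
  rw [onT, memv_chk, memv_chk, iSup_inf_eq]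
  refine iSup_le fun a => ?_
  refine (memv_congr_right z y (on a)).trans ?_
  rw [on_def a, memv_chk]
  exact iSup_le fun b => le_iSup_of_le b.1 le_rfl

theorem ordl_on (x : X) (F : UF B) : Ordl (Mod.E F) (Mod.mk F (on x)) := by
  refine ⟨tran_of (memv_on_trans x) F, fun y hy => ?_⟩
  rw [on_def x] at hy
  exact ball_chk (fun y : Set.Iio x => on y.1) (fTran 0) (fun _ => on x) ⊤
    (fun F' _ a => tran_of (memv_on_trans a.1) F') F F.top y hy

theorem ordl_onT (F : UF B) : Ordl (Mod.E F) (Mod.mk F (onT X)) := by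
  refine ⟨tran_of memv_onT_trans F, fun y hy => ?_⟩
  exact ball_chk (on : X → BSet B) (fTran 0) (fun _ => onT X) ⊤
    (fun F' _ a => tran_of (memv_on_trans a) F') F F.top y hy

theorem E_on {x y : X} (h : x < y) (F : UF B) : Mod.E F (Mod.mk F (on x)) (Mod.mk F (on y)) := by
  rw [Mod.E_mk, memv_on, tv_true h]
  exact F.top

theorem E_on_iff {x y : X} (F : UF B) :
    Mod.E F (Mod.mk F (on x)) (Mod.mk F (on y)) ↔ x < y := by
  rw [Mod.E_mk, memv_on, F.tv_iff]

theorem E_onT (x : X) (F : UF B) : Mod.E F (Mod.mk F (on x)) (Mod.mk F (onT X)) := by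
  rw [Mod.E_mk, memv_on_onT]
  exact F.top

theorem limit_on {x : X} (hx : IsLim x) (F : UF B) : Limit (Mod.E F) (Mod.mk F (on x)) := by
  refine ⟨ordl_on x F, ?_, fun y hy => ?_⟩
  · obtain ⟨y, hy⟩ := hx.1
    exact ⟨_, E_on hy F⟩
  · rw [on_def x] at hy
    refine ball_chk (fun y : Set.Iio x => on y.1) (.ex (.and (.mem 0 2) (.mem 1 0)))
      (fun _ => on x) ⊤ (fun F' _ a => ?_) F F.top y hy
    obtain ⟨z, h1, h2⟩ := hx.2 a.1 a.2
    exact ⟨Mod.mk F' (on z), E_on h2 F', E_on h1 F'⟩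

theorem not_limit_on {x : X} (hx : ¬ IsLim x) (F : UF B) :
    ¬ Limit (Mod.E F) (Mod.mk F (on x)) := by
  rintro ⟨_, ⟨y, hy⟩, h⟩
  obtain ⟨y, rfl⟩ := y.exists_rep
  by_cases h0 : ∃ y, y < x
  · have : ∃ a, a < x ∧ ∀ z, a < z → ¬ z < x := by
      by_contra hcon
      push Not at hcon
      exact hx ⟨h0, hcon⟩
    obtain ⟨a, ha, hmax⟩ := this
    obtain ⟨z, hz, hz'⟩ := h _ (E_on ha F)
    obtain ⟨z, rfl⟩ := z.exists_rep
    have h1 := chk_bex (nm := fun y : Set.Iio x => (on y.1 : BSet B)) (Congr.mem_left (on a))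
    rw [← on_def x] at h1
    have h2 : F.U (⨆ z, memv z (on x) ⊓ memv (on a) z) :=
      F.mono (le_iSup (fun z => memv z (on x) ⊓ memv (on a) z) z) (F.inf hz hz')
    rw [h1] at h2
    simp only [memv_on, tv_iSup, F.tv_iff] at h2
    obtain ⟨b, hb⟩ := h2
    exact hmax b.1 hb b.2
  · rw [Mod.E_mk, on_def x, memv_chk] at hy
    apply F.bot
    refine F.mono (iSup_le fun a => ?_) hy
    exact absurd ⟨a.1, a.2⟩ h0

theorem limit_onT (h0 : Nonempty X) (h : ∀ x : X, ∃ y, x < y) (F : UF B) :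
    Limit (Mod.E F) (Mod.mk F (onT X)) := by
  refine ⟨ordl_onT F, ⟨_, E_onT h0.some F⟩, fun y hy => ?_⟩
  refine ball_chk (on : X → BSet B) (.ex (.and (.mem 0 2) (.mem 1 0)))
      (fun _ => onT X) ⊤ (fun F' _ a => ?_) F F.top y hy
  obtain ⟨z, h1⟩ := h a
  exact ⟨Mod.mk F' (on z), E_onT z F', E_on h1 F'⟩

end

theorem not_isLim_nat (n : ℕ) : ¬ IsLim n := by
  rintro ⟨⟨y, hy⟩, h⟩
  obtain ⟨m, rfl⟩ : ∃ m, n = m + 1 := ⟨n - 1, by omega⟩
  obtain ⟨z, h1, h2⟩ := h m (Nat.lt_succ_self m)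
  omega

theorem omega_onT (F : UF B) : Omega (Mod.E F) (Mod.mk F (onT ℕ)) := by
  refine ⟨limit_onT ⟨0⟩ (fun x => ⟨x + 1, Nat.lt_succ_self x⟩) F, fun x hx => ?_⟩
  exact ball_chk (on : ℕ → BSet B) (.neg (fLimit 0)) (fun _ => onT ℕ) ⊤
    (fun F' _ a => not_limit_on (not_isLim_nat a) F') F F.top x hx

/-- names of functional relations -/
theorem fun_relN {X Y : Type} {nm : X → BSet B} {nm' : Y → BSet B} (hd : Disc nm)
    {R : X → Y → B} {c : B} (fn : ∀ a b b', c ⊓ (R a b ⊓ R a b') ≤ eqv (nm' b) (nm' b'))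
    (F : UF B) (hF : F.U c) (x y y' : Mod F) (h : Rel (Mod.E F) (Mod.mk F (relN nm nm' R)) x y)
    (h' : Rel (Mod.E F) (Mod.mk F (relN nm nm' R)) x y') : y' = y := by
  obtain ⟨x, rfl⟩ := x.exists_rep
  obtain ⟨y, rfl⟩ := y.exists_rep
  obtain ⟨y', rfl⟩ := y'.exists_rep
  rw [Rel_mk, memv_relN] at h h'
  rw [Mod.mk_eq]
  refine F.mono ?_ (F.inf hF (F.inf h h'))
  refine sup_elim (inf_le_right.trans inf_le_left) fun a => ?_
  refine sup_elim inf_le_right fun b => ?_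
  refine sup_elim (inf_le_left.trans (inf_le_left.trans (inf_le_right.trans inf_le_right)))
    fun a' => ?_
  refine sup_elim inf_le_right fun b' => ?_
  refine le_of_uf fun G hG => ?_
  simp only [G.inf_iff] at hG
  obtain ⟨⟨⟨⟨⟨hc, _⟩, _⟩, h1, h2, h3⟩, _⟩, h4, h5, h6⟩ := hG
  rw [← Mod.mk_eq] at h2 h3 h5 h6 ⊢
  have e : a = a' := hd.eq (Mod.mk_eq.1 (h2.symm.trans h5))
  subst e
  rw [h3, h6, Mod.mk_eq, eqv_symm]
  exact G.mono (fn a b b') (G.inf hc (G.inf h1 h4))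

/-- surjections in the ground model -/
theorem cardLE_chk {X Y : Type} {nm : X → BSet B} {nm' : Y → BSet B} (hd : Disc nm)
    (hd' : Disc nm') (R : X → Y → Prop) (fn : ∀ a b b', R a b → R a b' → b = b')
    (onto : ∀ b, ∃ a, R a b) (F : UF B) :
    CardLE (Mod.E F) (Mod.mk F (chk nm')) (Mod.mk F (chk nm)) := by
  refine ⟨Mod.mk F (relN nm nm' fun a b => tv (R a b)), ?_, fun y hy => ?_⟩
  · intro x y y' h h'
    refine fun_relN hd (c := ⊤) (fun a b b' => ?_) F F.top x y y' h h'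
    rw [top_inf_eq, tv_inf, hd']
    by_cases hR : R a b ∧ R a b'
    · rw [tv_true (fn a b b' hR.1 hR.2)]; exact le_top
    · rw [tv_false hR]; exact bot_le
  · refine ball_chk nm' (.ex (.and (.mem 0 2) (fRel 3 0 1)))
      (cons (chk nm) fun _ => relN nm nm' fun a b => tv (R a b)) ⊤ (fun F' _ b => ?_) F F.top y hy
    obtain ⟨a, ha⟩ := onto b
    refine ⟨Mod.mk F' (nm a), ?_, ?_⟩
    · show Mod.E F' (Mod.mk F' (nm a)) (Mod.mk F' (chk nm))
      rw [Mod.E_mk, memv_chk]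
      exact F'.mono (le_iSup_of_le a (eqv_refl _).ge) F'.top
    · show Rel (Mod.E F') (Mod.mk F' (relN nm nm' fun a b => tv (R a b))) (Mod.mk F' (nm a))
        (Mod.mk F' (nm' b))
      rw [Rel_mk, Rel_relN hd hd', F'.tv_iff]
      exact ha

/-- absence of surjections -/
theorem not_cardLE {X Y : Type} {nm : X → BSet B} {nm' : Y → BSet B}
    (hd' : Disc nm')
    (h : ∀ e : X → Y → B, (⨅ x, ⨅ y, ⨅ z, e x y ⇨ (e x z ⇨ tv (y = z))) ⊓ (⨅ y, ⨆ x, e x y) = ⊥)
    (F : UF B) : ¬ CardLE (Mod.E F) (Mod.mk F (chk nm')) (Mod.mk F (chk nm)) := by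
  rintro ⟨f, hf⟩
  obtain ⟨f, rfl⟩ := f.exists_rep
  have h1 := (los F (.and (.all (.all (.all (.imp (fRel 3 2 1) (.imp (fRel 3 2 0) (.eq 0 1))))))
    (.all (.imp (.mem 0 2) (.ex (.and (.mem 0 4) (fRel 2 0 1))))))
    (cons f (cons (chk nm') fun _ => chk nm))).1 hf
  apply F.bot
  rw [← h (fun a b => memv (op (nm a) (nm' b)) f)]
  refine F.mono (inf_le_inf ?_ ?_) h1
  · refine le_iInf fun a => le_iInf fun b => le_iInf fun b' => ?_
    refine (iInf_le _ (nm a)).trans ((iInf_le _ (nm' b)).trans ((iInf_le _ (nm' b')).trans ?_))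
    simp only [val, val_fRel]
    show memv (op (nm a) (nm' b)) f ⇨ (memv (op (nm a) (nm' b')) f ⇨ eqv (nm' b') (nm' b)) ≤ _
    rw [hd']
    have : (b' = b) = (b = b') := propext eq_comm
    rw [this]
  · refine le_iInf fun b => ?_
    refine (iInf_le _ (nm' b)).trans ?_
    simp only [val, val_fRel]
    show memv (nm' b) (chk nm') ⇨ (⨆ x, memv x (chk nm) ⊓ memv (op x (nm' b)) f) ≤ _
    have e1 : memv (nm' b) (chk nm') = ⊤ := by
      rw [memv_chk, eq_top_iff]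
      exact le_iSup_of_le b (eqv_refl _).ge
    have hQ : Congr (fun x => memv (op x (nm' b)) f) := by
      have := val_congr1 (fRel 1 0 2) (cons f fun _ => nm' b)
      intro x y
      have h2 := this x y
      simp only [val_fRel] at h2
      exact h2
    rw [e1, top_himp, chk_bex hQ]

end

end Pool.Agent.BVM
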