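import Pool.Agent.BVM.GoodFam
import Pool.Agent.BVM.BadFam

/-!
# Successor cardinals in the quotient models, and the final model
-/

namespace Pool.Agent.BVM

open Pool.Agent.LadderTree Cardinal Pool.Agent.Forcing

/-- the well-order of type `ℵ_ n` -/
abbrev Al (n : ℕ) : Type := (ℵ_ (n : Ordinal.{0})).ord.ToType

theorem mk_Al (n : ℕ) : #(Al n) = ℵ_ (n : Ordinal.{0}) := mk_ord_toType _

theorem al_succ (n : ℕ) : ℵ_ ((n + 1 : ℕ) : Ordinal.{0}) = Order.succ (ℵ_ (n : Ordinal.{0})) := by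
  rw [Nat.cast_succ, ← succ_aleph]

theorem cof_Al (n : ℕ) : Order.cof (Al (n + 1)) = ℵ_ ((n + 1 : ℕ) : Ordinal.{0}) := by
  have : (ℵ_ ((n + 1 : ℕ) : Ordinal.{0})).IsRegular := by
    rw [al_succ]
    exact isRegular_succ (aleph0_le_aleph _)
  exact (Ordinal.cof_toType _).trans this.cof_ord

/-- small sets are bounded -/
theorem bdd_Al (n : ℕ) (s : Set (Al (n + 1))) (hs : #s < ℵ_ ((n + 1 : ℕ) : Ordinal.{0})) :
    ∃ i, ∀ x ∈ s, x < i := by
  by_contra h
  push Not at h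
  have hc : IsCofinal s := h
  have := Order.cof_le hc
  rw [cof_Al] at this
  exact absurd hs (not_lt.2 this)

theorem bdd_fun (n : ℕ) {X : Type} (hX : #X ≤ ℵ_ (n : Ordinal.{0})) (s : X → Al (n + 1)) :
    ∃ i, ∀ x, s x ≤ i := by
  obtain ⟨i, hi⟩ := bdd_Al n (Set.range s) (by
    refine lt_of_le_of_lt mk_range_le (lt_of_le_of_lt hX ?_)
    rw [al_succ]
    exact Order.lt_succ _)
  exact ⟨i, fun x => (hi _ ⟨x, rfl⟩).le⟩

instance cofOmega1_Al (n : ℕ) : CofOmega1 (Al (n + 1)) := by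
  constructor
  intro s hs
  refine bdd_Al n s ?_
  have h1 : #s ≤ ℵ₀ := hs.le_aleph0
  refine lt_of_le_of_lt h1 ?_
  rw [← aleph_zero, aleph_lt_aleph]
  exact_mod_cast Nat.succ_pos n

theorem mk_Iio_Al (n : ℕ) (a : Al (n + 1)) : #(Set.Iio a) ≤ ℵ_ (n : Ordinal.{0}) := by
  have h : #(Set.Iio a) < #(Al (n + 1)) := mk_Iio_lt a (by simp)
  have h' := h.trans_eq ((mk_Al (n + 1)).trans (al_succ n))
  exact Order.lt_succ_iff.1 h'

instance omega1_Al : Omega1 (Al 1) := by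
  constructor
  · intro a
    have := mk_Iio_Al 0 a
    rw [Nat.cast_zero, aleph_zero] at this
    exact Set.countable_coe_iff.1 (mk_le_aleph0_iff.1 this)
  · intro h
    have h1 : #(Set.univ : Set (Al 1)) ≤ ℵ₀ := h.le_aleph0
    rw [mk_univ, mk_Al, ← aleph_zero, aleph_le_aleph] at h1
    exact absurd h1 (by simp)

theorem fibre (n : ℕ) {X Y : Type} (hX : #X = ℵ_ (n : Ordinal.{0}))
    (hY : #Y = ℵ_ ((n + 1 : ℕ) : Ordinal.{0})) (f : Y → X) : ∃ x, ¬ (f ⁻¹' {x}).Countable := by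
  by_contra h
  push Not at h
  have h1 : #Y ≤ #X * ℵ₀ := by
    have e : #Y = #(Σ x, f ⁻¹' {x}) := mk_congr (Equiv.sigmaFiberEquiv f).symm
    rw [e, mk_sigma]
    refine (sum_le_sum _ (fun _ => ℵ₀) fun x => (h x).le_aleph0).trans ?_
    rw [sum_const, lift_id, lift_id]
  rw [hX, hY, mul_aleph0_eq (aleph0_le_aleph _), al_succ] at h1
  exact absurd h1 (not_le.2 (Order.lt_succ _))

section

variable {Ω I : Type} [LinearOrder Ω] [WellFoundedLT Ω] [Omega1 Ω] [LinearOrder I]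
  [WellFoundedLT I]

/-- successor cardinals are preserved -/
theorem succCard_onT {X Y : Type} [LinearOrder X] [WellFoundedLT X] [LinearOrder Y]
    [WellFoundedLT Y] (h1 : ∀ f : Y → X, ∃ x, ¬ (f ⁻¹' {x}).Countable)
    (h2 : ∀ y : Y, #(Set.Iio y) ≤ #X) (F : UF (RO (PP Ω I))) :
    SuccCard (Mod.E F) (Mod.mk F (onT Y)) (Mod.mk F (onT X)) := by
  refine ⟨ordl_onT F, ?_, ?_⟩
  · exact not_cardLE disc_on (fun e => onto_bot h1 e) F
  · intro y hy
    refine ball_chk (on : Y → BSet (RO (PP Ω I))) (fCardLE 0 1) (fun _ => onT X) ⊤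
      (fun G _ b => ?_) F F.top y hy
    obtain ⟨i⟩ := Cardinal.le_def _ _ |>.1 (h2 b)
    have hc : CardLE (Mod.E G) (Mod.mk G (chk fun a : Set.Iio b => on a.1)) (Mod.mk G (onT X)) := by
      refine cardLE_chk disc_on (disc_on.comp Subtype.val_injective)
        (fun (x : X) (a : Set.Iio b) => i a = x) (fun a b b' h h' => i.injective (h.trans h'.symm))
        (fun a => ⟨i a, rfl⟩) G
    rw [← on_def b] at hc
    exact hc

/-- a set of names indexed by `I` has size at most `|I|` -/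
theorem cardLE_names {B : Type} [CompleteBooleanAlgebra B] {X : Type} [LinearOrder X]
    [WellFoundedLT X] (nm : X → BSet B) (F : UF B) :
    CardLE (Mod.E F) (Mod.mk F (chk nm)) (Mod.mk F (onT X)) := by
  refine ⟨Mod.mk F (relN on nm fun a b => tv (a = b)), ?_, fun y hy => ?_⟩
  · intro x y y' h h'
    refine fun_relN disc_on (c := ⊤) (fun a b b' => ?_) F F.top x y y' h h'
    rw [top_inf_eq, tv_inf]
    by_cases hR : a = b ∧ a = b'
    · rw [← hR.1, ← hR.2, eqv_refl]; exact le_top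
    · rw [tv_false hR]; exact bot_le
  · refine ball_chk nm (.ex (.and (.mem 0 2) (fRel 3 0 1)))
      (cons (onT X) fun _ => relN on nm fun a b => tv (a = b)) ⊤ (fun G _ b => ?_) F F.top y hy
    refine ⟨Mod.mk G (on b), E_onT b G, ?_⟩
    show Rel (Mod.E G) (Mod.mk G (relN on nm fun a b => tv (a = b))) (Mod.mk G (on b))
      (Mod.mk G (nm b))
    rw [Rel_mk, memv_relN]
    refine G.mono (le_iSup_of_le b (le_iSup_of_le b ?_)) G.top
    rw [eqv_refl, eqv_refl, tv_true rfl, inf_top_eq, inf_top_eq]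

end

theorem prod_le {n : ℕ} {X Y : Type} (hX : #X ≤ ℵ_ (n : Ordinal.{0}))
    (hY : #Y ≤ ℵ_ (n : Ordinal.{0})) : #(X × Y) ≤ ℵ_ (n : Ordinal.{0}) := by
  rw [mk_prod, lift_id, lift_id]
  exact (mul_le_mul' hX hY).trans_eq (mul_eq_self (aleph0_le_aleph _))

theorem al_le {m n : ℕ} (h : m ≤ n) : #(Al m) ≤ ℵ_ (n : Ordinal.{0}) := by
  rw [mk_Al, aleph_le_aleph]
  exact_mod_cast h

theorem nat_le {n : ℕ} : #ℕ ≤ ℵ_ (n : Ordinal.{0}) := by
  rw [mk_nat]
  exact aleph0_le_aleph _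

/-- `ZFC + λ* = ℵ₃` has a model -/
theorem exists_model : ∃ (M : Type 1) (E : M → M → Prop), ZFC E ∧
    ∃ w w1 w2 w3 : M, Omega E w ∧ SuccCard E w1 w ∧ SuccCard E w2 w1 ∧ SuccCard E w3 w2 ∧
      (∃ F, CardLE E F w3 ∧ Bad E w w1 F) ∧ ∀ F, CardLE E F w2 → ¬ Bad E w w1 F := by
  have hne : (⊤ : RO (PP (Al 1) (Al 3))) ≠ ⊥ := by
    intro h
    have : Forc (PP.one : PP (Al 1) (Al 3)) (⊤ : RO (PP (Al 1) (Al 3))) := forc_top
    rw [h] at this
    exact forc_bot this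
  obtain ⟨F, _⟩ := exists_uf hne
  obtain ⟨C, hC⟩ := exists_ladder (Ω := Al 1)
  have hL : IsLad C := ⟨fun α h => (hC α h).1, fun α h => strictMono_nat_of_lt_succ (hC α h).2.1,
    fun α h => (hC α h).2.2⟩
  refine ⟨Mod F, Mod.E F, zfc F, Mod.mk F (onT ℕ), Mod.mk F (onT (Al 1)), Mod.mk F (onT (Al 2)),
    Mod.mk F (onT (Al 3)), omega_onT F, ?_, ?_, ?_, ⟨Mod.mk F (chk fun i : Al 3 => fI C i),
    cardLE_names _ F, ?_⟩, ?_⟩
  · refine succCard_onT (fibre 0 ?_ (mk_Al 1)) (fun y => ?_) F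
    · simp
    · refine (mk_Iio_Al 0 y).trans ?_
      simp
  · refine succCard_onT (fibre 1 (mk_Al 1) (mk_Al 2)) (fun y => ?_) F
    rw [mk_Al]
    exact mk_Iio_Al 1 y
  · refine succCard_onT (fibre 2 (mk_Al 2) (mk_Al 3)) (fun y => ?_) F
    rw [mk_Al]
    exact mk_Iio_Al 2 y
  · exact bad_fam (fun s => bdd_fun 2 (prod_le (al_le (by norm_num)) (prod_le nat_le
      (prod_le (al_le (by norm_num)) nat_le))) s) hL F
  · intro Fam hle
    exact not_bad_small (fun s => bdd_fun 2 (prod_le (al_le le_rfl) (prod_le (al_le (by norm_num))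
      (prod_le (al_le (by norm_num)) nat_le))) s) F Fam hle

end Pool.Agent.BVM
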