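import Mathlib

/-!
# Formulas of set theory and the axioms of ZFC
-/

namespace Pool.Agent.BVM

/-- formulas of the language of set theory; variables are de Bruijn indices -/
inductive Fml : Type
  | mem (i j : ℕ)
  | eq (i j : ℕ)
  | neg (a : Fml)
  | and (a b : Fml)
  | or (a b : Fml)
  | imp (a b : Fml)
  | iff (a b : Fml)
  | all (a : Fml)
  | ex (a : Fml)

/-- extend an assignment -/
def cons {M : Type*} (x : M) (v : ℕ → M) : ℕ → M
  | 0 => x
  | n + 1 => v n

/-- satisfaction of a formula in a structure `(M, E)` -/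
def Sat {M : Type*} (E : M → M → Prop) : Fml → (ℕ → M) → Prop
  | .mem i j, v => E (v i) (v j)
  | .eq i j, v => v i = v j
  | .neg a, v => ¬ Sat E a v
  | .and a b, v => Sat E a v ∧ Sat E b v
  | .or a b, v => Sat E a v ∨ Sat E b v
  | .imp a b, v => Sat E a v → Sat E b v
  | .iff a b, v => (Sat E a v ↔ Sat E b v)
  | .all a, v => ∀ x, Sat E a (cons x v)
  | .ex a, v => ∃ x, Sat E a (cons x v)

/-- `(M, E)` is a model of ZFC -/
structure ZFC {M : Type*} (E : M → M → Prop) : Prop where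
  /-- extensionality -/
  ext : ∀ x y, (∀ z, E z x ↔ E z y) → x = y
  /-- foundation -/
  found : ∀ x, (∃ y, E y x) → ∃ y, E y x ∧ ∀ z, E z y → ¬ E z x
  /-- pairing -/
  pair : ∀ x y, ∃ z, ∀ t, E t z ↔ (t = x ∨ t = y)
  /-- union -/
  union : ∀ x, ∃ u, ∀ t, E t u ↔ ∃ y, E y x ∧ E t y
  /-- power set -/
  power : ∀ x, ∃ p, ∀ t, E t p ↔ ∀ z, E z t → E z x
  /-- infinity -/
  infinity : ∃ x, (∃ e, E e x ∧ ∀ z, ¬ E z e) ∧ ∀ y, E y x → ∃ s, E s x ∧ ∀ z, E z s ↔
    (E z y ∨ z = y)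
  /-- separation, for formulas with parameters -/
  sep : ∀ (φ : Fml) (v : ℕ → M) (x : M), ∃ y, ∀ z, E z y ↔ (E z x ∧ Sat E φ (cons z v))
  /-- replacement, for formulas with parameters -/
  repl : ∀ (φ : Fml) (v : ℕ → M) (x : M),
    (∀ a, E a x → ∃! b, Sat E φ (cons b (cons a v))) →
    ∃ y, ∀ b, E b y ↔ ∃ a, E a x ∧ Sat E φ (cons b (cons a v))
  /-- choice: every family of nonempty disjoint sets has a transversal -/
  choice : ∀ x, (∀ y, E y x → ∃ z, E z y) →
    (∀ y y' z, E y x → E y' x → E z y → E z y' → y = y') →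
    ∃ c, ∀ y, E y x → ∃! z, E z y ∧ E z c

end Pool.Agent.BVM
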