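import Pool.Agent.BVM.Unif

/-!
# Families of size at most `ℵ₂` are not bad
-/

namespace Pool.Agent.BVM

open Pool.Agent.LadderTree Pool.Agent.Forcing

set_option linter.unusedSectionVars false

/-- `x₀` is a function and all elements of `x₁` are ladder system colourings (`x₂ = ω`,
`x₃ = ω₁`) -/
def fHyp : Fml := .and (.all (.all (.all (.imp (fRel 3 2 1) (.imp (fRel 3 2 0) (.eq 0 1))))))
  (.all (.imp (.mem 0 2) (fLSC 3 4 0)))

theorem sat_fHyp {M : Type*} {E : M → M → Prop} {v : ℕ → M} : Sat E fHyp v ↔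
    (∀ x y y', Rel E (v 0) x y → Rel E (v 0) x y' → y' = y) ∧
      ∀ f, E f (v 1) → LSC E (v 2) (v 3) f := Iff.rfl

/-- some `f` in `x₂` is the value of `x₁` at `x₀` -/
def fJ : Fml := .ex (.and (fRel 2 1 0) (.mem 0 3))

theorem sat_fJ {M : Type*} {E : M → M → Prop} {v : ℕ → M} : Sat E fJ v ↔
    ∃ f, Rel E (v 1) (v 0) f ∧ E f (v 2) := Iff.rfl

/-- the value at `x₂` of the value at `x₁` of the `x₀`-th colouring is `x₃` -/
def fG : Fml := .ex (.ex (.and (.and (fRel 6 2 1) (.mem 1 7)) (.and (fRel 1 3 0) (fRel 0 4 5))))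

theorem sat_fG {M : Type*} {E : M → M → Prop} {v : ℕ → M} : Sat E fG v ↔
    ∃ f g, (Rel E (v 4) (v 0) f ∧ E f (v 5)) ∧ Rel E f (v 1) g ∧ Rel E g (v 2) (v 3) := Iff.rfl

/-- the formula inside the first existential quantifier of `fLSC1` -/
def fLSC0 (w α f : ℕ) : Fml :=
  .and (.and (fRel (f + 1) (α + 1) 0) (.all (.imp (fRel (f + 2) (α + 2) 0) (.eq 0 1))))
    (.ex (.and (fLadder (w + 2) (α + 2) 0) (.and (fFunOn 1 0)
      (.all (.all (.imp (fRel 3 1 0) (.mem 0 (w + 4))))))))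

section

variable {Ω J I : Type} [LinearOrder Ω] [LinearOrder I] [WellFoundedLT I] [WellFoundedLT Ω]
  [Omega1 Ω] [LinearOrder J] [WellFoundedLT J]

variable (Ω) in
/-- value of the hypothesis on a family -/
noncomputable def hypv (e Fam : BSet (RO (PP Ω I))) : RO (PP Ω I) :=
  val fHyp (cons e (cons Fam (cons (onT ℕ) fun _ => onT Ω)))

/-- value of the statement that the `j`-th member exists -/
noncomputable def cv (e Fam : BSet (RO (PP Ω I))) (j : J) : RO (PP Ω I) :=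
  hypv Ω e Fam ⊓ val fJ (cons (on j) (cons e fun _ => Fam))

/-- value of the statement that the `j`-th colouring has value `n` at `ξ` in the `α`-th ladder -/
noncomputable def gv (e Fam : BSet (RO (PP Ω I))) (j : J) (α ξ : Ω) (n : ℕ) : RO (PP Ω I) :=
  val fG (cons (on j) (cons (on α) (cons (on ξ) (cons (on n) (cons e fun _ => Fam)))))

theorem U_hypv (e Fam : BSet (RO (PP Ω I))) (G : UF (RO (PP Ω I))) : G.U (hypv Ω e Fam) ↔
    (∀ x y y', Rel (Mod.E G) (Mod.mk G e) x y → Rel (Mod.E G) (Mod.mk G e) x y' → y' = y) ∧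
      ∀ f, Mod.E G f (Mod.mk G Fam) →
        LSC (Mod.E G) (Mod.mk G (onT ℕ)) (Mod.mk G (onT Ω)) f := by
  rw [hypv, ← los, sat_fHyp]
  exact Iff.rfl

theorem U_cv (e Fam : BSet (RO (PP Ω I))) (j : J) (G : UF (RO (PP Ω I))) : G.U (cv e Fam j) ↔
    G.U (hypv Ω e Fam) ∧ ∃ f, Rel (Mod.E G) (Mod.mk G e) (Mod.mk G (on j)) f ∧
      Mod.E G f (Mod.mk G Fam) := by
  rw [cv, G.inf_iff, ← los, sat_fJ]
  exact Iff.rfl

theorem U_gv (e Fam : BSet (RO (PP Ω I))) (j : J) (α ξ : Ω) (n : ℕ) (G : UF (RO (PP Ω I))) :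
    G.U (gv e Fam j α ξ n) ↔ ∃ f g, (Rel (Mod.E G) (Mod.mk G e) (Mod.mk G (on j)) f ∧
      Mod.E G f (Mod.mk G Fam)) ∧ Rel (Mod.E G) f (Mod.mk G (on α)) g ∧
        Rel (Mod.E G) g (Mod.mk G (on ξ)) (Mod.mk G (on n)) := by
  rw [gv, ← los, sat_fG]
  exact Iff.rfl

/-- the colourings in the family satisfy the hypothesis of the combinatorial theorem -/
theorem decBelow_gv (e Fam : BSet (RO (PP Ω I))) (j : J) :
    DecBelow (cv e Fam j) (gv e Fam j) := by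
  refine decBelow_of_enum fun β hβ => ?_
  set c := cv e Fam j with hc
  -- the name of the colouring
  obtain ⟨f, hf⟩ : ∃ f, c ≤ val (.and (fRel 2 1 0) (.mem 0 3))
      (cons f (cons (on j) (cons e fun _ => Fam))) :=
    exists_of_le_ex (φ := .and (fRel 2 1 0) (.mem 0 3)) inf_le_right
  have hf' : ∀ G : UF (RO (PP Ω I)), G.U c → Rel (Mod.E G) (Mod.mk G e) (Mod.mk G (on j))
      (Mod.mk G f) ∧ Mod.E G (Mod.mk G f) (Mod.mk G Fam) := fun G hG =>
    (los G _ _).2 (G.mono hf hG)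
  have hlim : ∀ G : UF (RO (PP Ω I)), Limit (Mod.E G) (Mod.mk G (on β)) := limit_on hβ
  -- the name of the colouring at `β`
  obtain ⟨g, hg⟩ : ∃ g, c ≤ val (fLSC0 0 1 2) (cons g (cons (onT ℕ) (cons (on β) fun _ => f))) := by
    refine exists_of_le_ex (φ := fLSC0 0 1 2) (le_val fun G hG => ?_)
    have h1 := ((U_cv e Fam j G).1 hG).1
    have h2 := ((U_hypv e Fam G).1 h1).2 _ (hf' G hG).2
    exact h2.2 _ (E_onT β G) (hlim G)
  obtain ⟨cc, hcc⟩ : ∃ cc, c ≤ val (.and (fLadder 2 3 0) (.and (fFunOn 1 0)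
      (.all (.all (.imp (fRel 3 1 0) (.mem 0 4))))))
      (cons cc (cons g (cons (onT ℕ) (cons (on β) fun _ => f)))) :=
    exists_of_le_ex (hg.trans inf_le_right)
  obtain ⟨h, hh⟩ : ∃ h, c ≤ val (.and (fFunOn 0 3)
        (.and (.all (.all (.all (.all (.imp (.mem 3 2) (.imp (fRel 4 3 1) (.imp (fRel 4 2 0)
          (.mem 1 0))))))))
          (.all (.iff (.mem 0 2) (.ex (fRel 2 0 1))))))
      (cons h (cons cc (cons g (cons (onT ℕ) (cons (on β) fun _ => f))))) :=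
    exists_of_le_ex (hcc.trans (inf_le_left.trans (inf_le_right.trans inf_le_right)))
  have hg1 : ∀ G : UF (RO (PP Ω I)), G.U c → Rel (Mod.E G) (Mod.mk G f) (Mod.mk G (on β))
      (Mod.mk G g) ∧ ∀ g', Rel (Mod.E G) (Mod.mk G f) (Mod.mk G (on β)) g' → g' = Mod.mk G g :=
    fun G hG => ((los G _ _).2 (G.mono hg hG)).1
  have hc1 : ∀ G : UF (RO (PP Ω I)), G.U c →
      (∀ x, Mod.E G x (Mod.mk G cc) → Mod.E G x (Mod.mk G (on β))) ∧
      (∀ x, Mod.E G x (Mod.mk G (on β)) → ∃ y, Mod.E G y (Mod.mk G cc) ∧ Mod.E G x y) ∧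
      FunOn (Mod.E G) (Mod.mk G g) (Mod.mk G cc) ∧
      ∀ x n, Rel (Mod.E G) (Mod.mk G g) x n → Mod.E G n (Mod.mk G (onT ℕ)) := fun G hG => by
    have h1 := (los G _ _).2 (G.mono hcc hG)
    exact ⟨h1.1.1, h1.1.2.1, h1.2.1, h1.2.2⟩
  have hh1 : ∀ G : UF (RO (PP Ω I)), G.U c →
      FunOn (Mod.E G) (Mod.mk G h) (Mod.mk G (onT ℕ)) ∧
      (∀ n m x y, Mod.E G n m → Rel (Mod.E G) (Mod.mk G h) n x →
        Rel (Mod.E G) (Mod.mk G h) m y → Mod.E G x y) ∧
      ∀ x, Mod.E G x (Mod.mk G cc) ↔ ∃ n, Rel (Mod.E G) (Mod.mk G h) n x := fun G hG =>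
    (los G _ _).2 (G.mono hh hG)
  clear_value c
  -- bounded existential quantifiers
  have exO : ∀ (φ : Fml) (v : ℕ → BSet (RO (PP Ω I))) (d : RO (PP Ω I)),
      (∀ G : UF (RO (PP Ω I)), G.U d → ∃ x, Mod.E G x (Mod.mk G (on β)) ∧
        Sat (Mod.E G) φ (cons x fun i => Mod.mk G (v i))) →
      d ≤ ⨆ x : Set.Iio β, val φ (cons (on x.1) v) := by
    intro φ v d H
    rw [← chk_bex (nm := fun x : Set.Iio β => on x.1) (val_congr1 φ v), ← on_def]
    refine le_of_uf fun G hG => ?_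
    obtain ⟨x, h1, h2⟩ := H G hG
    obtain ⟨x, rfl⟩ := x.exists_rep
    rw [cons_mk, los] at h2
    exact G.mono (le_iSup (fun x => memv x (on β) ⊓ val φ (cons x v)) x) (G.inf h1 h2)
  have exN : ∀ (φ : Fml) (v : ℕ → BSet (RO (PP Ω I))) (d : RO (PP Ω I)),
      (∀ G : UF (RO (PP Ω I)), G.U d → ∃ x, Mod.E G x (Mod.mk G (onT ℕ)) ∧
        Sat (Mod.E G) φ (cons x fun i => Mod.mk G (v i))) →
      d ≤ ⨆ x : ℕ, val φ (cons (on x) v) := by
    intro φ v d H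
    rw [← chk_bex (nm := (on : ℕ → _)) (val_congr1 φ v)]
    refine le_of_uf fun G hG => ?_
    obtain ⟨x, h1, h2⟩ := H G hG
    obtain ⟨x, rfl⟩ := x.exists_rep
    rw [cons_mk, los] at h2
    exact G.mono (le_iSup (fun x => memv x (chk on) ⊓ val φ (cons x v)) x) (G.inf h1 h2)
  -- values of `g`
  have hgv : ∀ (x : Ω) (m : ℕ) (G : UF (RO (PP Ω I))), G.U c →
      (G.U (gv e Fam j β x m) ↔
        Rel (Mod.E G) (Mod.mk G g) (Mod.mk G (on x)) (Mod.mk G (on m))) := by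
    intro x m G hG
    rw [U_gv]
    constructor
    · rintro ⟨f', g', ⟨h1, h2⟩, h3, h4⟩
      have h5 := ((U_hypv e Fam G).1 ((U_cv e Fam j G).1 (hc ▸ hG)).1).1
      have h6 := h5 _ _ _ h1 (hf' G hG).1
      subst h6
      have h7 := (hg1 G hG).2 _ h3
      subst h7
      exact h4
    · intro h1
      exact ⟨Mod.mk G f, Mod.mk G g, hf' G hG, (hg1 G hG).1, h1⟩
  refine ⟨fun k x => memv (op (on k) (on x)) h, fun k => ?_, fun l hl => ?_,
    fun k x y => le_of_uf fun G hG => ?_, fun k k' x y hkk => le_of_uf fun G hG => ?_,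
    fun k x => ?_, fun x m m' => le_of_uf fun G hG => ?_, fun x m => ?_⟩
  · -- total
    have := exO (fRel 1 2 0) (cons h fun _ => on k) c (fun G hG => ?_)
    · refine this.trans (iSup_le fun x => le_iSup_of_le x.1 ?_)
      rw [val_fRel]
      exact le_rfl
    · obtain ⟨h1, _, h3⟩ := hh1 G hG
      obtain ⟨y, hy, _⟩ := h1.2 _ (E_onT k G)
      exact ⟨y, (hc1 G hG).1 y ((h3 y).2 ⟨_, hy⟩), hy⟩
  · -- cofinal
    have := exN (.ex (.and (.mem 0 2) (.and (.mem 3 0) (fRel 4 1 0))))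
      (cons (on β) (cons (on l) fun _ => h)) c (fun G hG => ?_)
    · refine this.trans (iSup_le fun k => le_iSup_of_le k ?_)
      have h2 := exO (.and (.mem 2 0) (fRel 3 1 0)) (cons (on k) (cons (on l) fun _ => h))
        (val (.ex (.and (.mem 0 2) (.and (.mem 3 0) (fRel 4 1 0))))
        (cons (on k) (cons (on β) (cons (on l) fun _ => h)))) (fun G hG => (los G _ _).2 hG)
      refine h2.trans (iSup_le fun x => le_iSup_of_le x.1 ?_)
      refine inf_le_inf ?_ ?_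
      · exact (memv_on l x.1).le
      · exact val_fRel.le
    · obtain ⟨h1, _, h3⟩ := hh1 G hG
      obtain ⟨y, hy, hly⟩ := (hc1 G hG).2.1 _ (E_on hl G)
      obtain ⟨n, hn⟩ := (h3 y).1 hy
      exact ⟨n, h1.mem hn, y, (hc1 G hG).1 y hy, hly, hn⟩
  · -- functional
    rw [G.inf_iff, G.inf_iff] at hG
    obtain ⟨h0, h1, h2⟩ := hG
    rw [← Rel_mk] at h1 h2
    have := (hh1 G h0).1.eq h1 h2
    rw [Mod.mk_eq, eqv_on] at this
    exact this
  · -- increasing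
    rw [G.inf_iff, G.inf_iff] at hG
    obtain ⟨h0, h1, h2⟩ := hG
    rw [← Rel_mk] at h1 h2
    have := (hh1 G h0).2.1 _ _ _ _ (E_on hkk G) h1 h2
    rw [Mod.E_mk, memv_on] at this
    exact this
  · -- values exist
    have := exN (fRel 1 2 0) (cons g fun _ => on x) (c ⊓ memv (op (on k) (on x)) h)
      (fun G hG => ?_)
    · have h2 := le_inf inf_le_left this
      rw [inf_iSup_eq] at h2
      refine h2.trans (iSup_le fun m => le_iSup_of_le m (le_of_uf fun G hG => ?_))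
      rw [G.inf_iff] at hG
      rw [hgv x m G hG.1, Rel_mk]
      have h3 := hG.2
      rw [val_fRel] at h3
      exact h3
    · rw [G.inf_iff, ← Rel_mk] at hG
      obtain ⟨h0, h1⟩ := hG
      obtain ⟨_, _, h3⟩ := hh1 G h0
      obtain ⟨_, _, h4, h5⟩ := hc1 G h0
      obtain ⟨y, hy, _⟩ := h4.2 _ ((h3 _).2 ⟨_, h1⟩)
      exact ⟨y, h5 _ _ hy, hy⟩
  · -- values are unique
    rw [G.inf_iff, G.inf_iff] at hG
    obtain ⟨h0, h1, h2⟩ := hG
    rw [hgv _ _ G h0] at h1 h2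
    have := (hc1 G h0).2.2.1.eq h1 h2
    rw [Mod.mk_eq, eqv_on] at this
    exact this
  · -- domain
    have := exN (fRel 1 0 2) (cons h fun _ => on x) (c ⊓ gv e Fam j β x m) (fun G hG => ?_)
    · refine this.trans (iSup_le fun k => le_iSup_of_le k ?_)
      rw [val_fRel]
      exact le_rfl
    · rw [G.inf_iff] at hG
      obtain ⟨h0, h1⟩ := hG
      rw [hgv _ _ G h0] at h1
      have h2 := (hc1 G h0).2.2.1.mem h1
      obtain ⟨n, hn⟩ := ((hh1 G h0).2.2 _).1 h2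
      exact ⟨n, (hh1 G h0).1.mem hn, hn⟩

/-- families of size at most `|J|` are not bad -/
theorem not_bad_small [CofOmega1 I] (bd : ∀ s : J × Ω × Ω × ℕ → I, ∃ i, ∀ x, s x ≤ i)
    (F : UF (RO (PP Ω I))) (Fam : Mod F) (hle : CardLE (Mod.E F) Fam (Mod.mk F (onT J))) :
    ¬ Bad (Mod.E F) (Mod.mk F (onT ℕ)) (Mod.mk F (onT Ω)) Fam := by
  rintro ⟨hL, hno⟩
  obtain ⟨e, hfun, honto⟩ := hle
  apply hno
  obtain ⟨Fam, rfl⟩ := Fam.exists_rep
  obtain ⟨e, rfl⟩ := e.exists_rep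
  have hyp : F.U (hypv Ω e Fam) := (U_hypv e Fam F).2 ⟨hfun, hL⟩
  choose i1 hi1 using fun j : J => exists_meas (cv (Ω := Ω) (I := I) e Fam j)
  choose i2 hi2 using fun x : J × Ω × Ω × ℕ => exists_meas (gv e Fam x.1 x.2.1 x.2.2.1 x.2.2.2)
  obtain ⟨i, hi⟩ := bd fun x => max (i1 x.1) (i2 x)
  have hΩ : Nonempty Ω := by
    by_contra h
    rw [not_nonempty_iff] at h
    exact Omega1.uncountable (Ω := Ω) (Set.countable_univ_iff.2 inferInstance)
  obtain ⟨α₀⟩ := hΩ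
  choose f hf using fun j : J => exists_label i (cv e Fam j) (gv e Fam j)
    ((hi1 j).mono ((le_max_left _ _).trans (hi (j, α₀, α₀, 0))))
    (fun α ξ n => (hi2 (j, α, ξ, n)).mono ((le_max_right _ _).trans (hi (j, α, ξ, n))))
    (decBelow_gv e Fam j)
  refine ⟨Mod.mk F TT, Mod.mk F (LLn i), Mod.mk F HH, aron_LLn i F, fun f' hf' => ?_⟩
  obtain ⟨x, hx, hxf⟩ := honto f' hf'
  have := ball_chk (on : J → _) (.all (.imp (fRel 2 1 0) (.imp (.mem 0 3)
    (.ex (fUnif 5 6 7 8 1 0))))) (cons e (cons Fam (cons (onT Ω) (cons TT (cons (LLn i)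
      fun _ => HH))))) (hypv Ω e Fam) (fun G hG j => ?_) F hyp x hx
  · exact this f' hxf hf'
  · intro f'' h1 h2
    obtain ⟨f'', rfl⟩ := f''.exists_rep
    refine ⟨Mod.mk G (phN i (f j)), ?_⟩
    refine fullUnif_of (hf j) f'' (cv e Fam j ⊓ (memv (op (on j) f'') e ⊓ memv f'' Fam))
      inf_le_left (fun G' hG' α hα g' hg' => ?_) G ?_
    · rw [G'.inf_iff, G'.inf_iff, ← Rel_mk] at hG'
      obtain ⟨a1, a2, a3⟩ := hG'
      have a4 := ((U_hypv e Fam G').1 ((U_cv e Fam j G').1 a1).1).2 (Mod.mk G' f'') a3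
      obtain ⟨g, ⟨_, b1⟩, _, _, _, b2⟩ := a4.2 _ (E_onT α G') (limit_on hα G')
      have b3 := b1 g' hg'
      subst b3
      exact ⟨b2, fun ξ n hn => (U_gv e Fam j α ξ n G').2 ⟨_, _, ⟨a2, a3⟩, hg', hn⟩⟩
    · rw [G.inf_iff, G.inf_iff, ← Rel_mk]
      exact ⟨(U_cv e Fam j G).2 ⟨hG, _, h1, h2⟩, h1, h2⟩

end

end Pool.Agent.BVM
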