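import Pool.Agent.BVM.Fml

/-!
# Set-theoretic notions inside a structure `(M, E)`

`E x y` is read `x ∈ y`.  All notions are relativized to the structure: quantifiers range over
`M`.
-/

namespace Pool.Agent.BVM

section

variable {M : Type*} (E : M → M → Prop)

/-- `z = {x, y}` -/
def UPair (z x y : M) : Prop := ∀ t, E t z ↔ (t = x ∨ t = y)

/-- `z` is the (Kuratowski) ordered pair `(x, y) = {{x}, {x, y}}` -/
def OPair (z x y : M) : Prop := ∃ a b, UPair E a x x ∧ UPair E b x y ∧ UPair E z a b

/-- `(x, y) ∈ f`; if `f` is a function this says `f(x) = y` -/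
def Rel (f x y : M) : Prop := ∃ z, OPair E z x y ∧ E z f

/-- `f` is a function with domain `d` -/
def FunOn (f d : M) : Prop :=
  (∀ z, E z f → ∃ x y, E x d ∧ OPair E z x y) ∧
    ∀ x, E x d → ∃ y, Rel E f x y ∧ ∀ y', Rel E f x y' → y' = y

/-- `x` is a transitive set -/
def Tran (x : M) : Prop := ∀ y z, E y x → E z y → E z x

/-- `x` is an ordinal (a transitive set of transitive sets) -/
def Ordl (x : M) : Prop := Tran E x ∧ ∀ y, E y x → Tran E y

/-- `x` is a limit ordinal -/
def Limit (x : M) : Prop := Ordl E x ∧ (∃ y, E y x) ∧ ∀ y, E y x → ∃ z, E z x ∧ E y z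

/-- `w` is the least limit ordinal `ω` -/
def Omega (w : M) : Prop := Limit E w ∧ ∀ x, E x w → ¬ Limit E x

/-- `|b| ≤ |a|`: some function maps a subset of `a` onto `b` -/
def CardLE (b a : M) : Prop :=
  ∃ f, (∀ x y y', Rel E f x y → Rel E f x y' → y' = y) ∧ ∀ y, E y b → ∃ x, E x a ∧ Rel E f x y

/-- `b` is the least ordinal with `|b| > |a|`; for an infinite cardinal `a` this is the successor
cardinal of `a` -/
def SuccCard (b a : M) : Prop := Ordl E b ∧ ¬ CardLE E b a ∧ ∀ x, E x b → CardLE E x a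

/-- `c` is a cofinal subset of `α` of order type `ω` (here `w = ω`): it is the range of an
increasing function `h` on `ω` -/
def Ladder (w α c : M) : Prop :=
  (∀ x, E x c → E x α) ∧ (∀ x, E x α → ∃ y, E y c ∧ E x y) ∧
    ∃ h, FunOn E h w ∧ (∀ n m x y, E n m → Rel E h n x → Rel E h m y → E x y) ∧
      ∀ x, E x c ↔ ∃ n, Rel E h n x

/-- `f` is a ladder system colouring (`w = ω`, `w1 = ω₁`): a function `α ↦ f_α` on the set of
limit ordinals below `ω₁`, such that `f_α` is a function from some ladder `C_α` at `α` to `ω` -/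
def LSC (w w1 f : M) : Prop :=
  (∀ z, E z f → ∃ α g, (E α w1 ∧ Limit E α) ∧ OPair E z α g) ∧
    ∀ α, E α w1 → Limit E α → ∃ g, (Rel E f α g ∧ ∀ g', Rel E f α g' → g' = g) ∧
      ∃ c, Ladder E w α c ∧ FunOn E g c ∧ ∀ x n, Rel E g x n → E n w

/-- `(T, L)` is an Aronszajn tree with height function `H` (`w = ω`, `w1 = ω₁`).  Here `L` is the
set of pairs `(s, t)` with `s < t` -/
structure Aronszajn (w w1 T L H : M) : Prop where
  /-- `<` is a relation on `T` -/
  field : ∀ s t, Rel E L s t → E s T ∧ E t T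
  /-- `<` is transitive -/
  trans : ∀ s t u, Rel E L s t → Rel E L t u → Rel E L s u
  /-- `H` is a function on `T` -/
  fn : FunOn E H T
  /-- with values in `ω₁` -/
  bdd : ∀ t α, Rel E H t α → E α w1
  /-- `s < t` implies `H(s) < H(t)` -/
  mono : ∀ s t α β, Rel E L s t → Rel E H s α → Rel E H t β → E α β
  /-- each `t` has exactly one predecessor `t ↾ α` at each height `α < H(t)` -/
  pred : ∀ t β α, Rel E H t β → E α β →
    ∃ s, (Rel E L s t ∧ Rel E H s α) ∧ ∀ s', Rel E L s' t → Rel E H s' α → s' = s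
  /-- for each `α < ω₁` the level `α` is nonempty and countable -/
  level : ∀ α, E α w1 → ∃ l, (∀ t, E t l ↔ Rel E H t α) ∧ (∃ t, E t l) ∧ CardLE E l w
  /-- every chain of `T` is countable -/
  chain : ∀ b, (∀ t, E t b → E t T) →
    (∀ s t, E s b → E t b → s = t ∨ Rel E L s t ∨ Rel E L t s) → CardLE E b w

/-- `φ` is a full `T`-uniformization of the ladder system colouring `f`: the tree `T` is pruned
(every node has extensions of arbitrarily large height below `ω₁`), `φ` is a function on `T`,
and for each `s` in `T` whose height `α` is a limit, `φ(s ↾ ξ) = f_α(ξ)` for all `ξ` in the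
domain `C_α` of `f_α` above some `β < α` (equivalently, for all but finitely many
`ξ ∈ C_α`) -/
def FullUnif (w1 T L H f φ : M) : Prop :=
  (∀ s, E s T → ∀ β, E β w1 → ∃ t γ, Rel E L s t ∧ Rel E H t γ ∧ E β γ) ∧
    FunOn E φ T ∧
      ∀ s α g, Rel E H s α → Limit E α → Rel E f α g → ∃ β, E β α ∧
        ∀ ξ c, E β ξ → Rel E g ξ c → ∀ u, Rel E L u s → Rel E H u ξ → Rel E φ u c

/-- `F` is a bad family of ladder system colourings (`w = ω`, `w1 = ω₁`): there is no Aronszajn
tree on which all members of `F` have a full uniformization -/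
def Bad (w w1 F : M) : Prop :=
  (∀ f, E f F → LSC E w w1 f) ∧
    ¬ ∃ T L H, Aronszajn E w w1 T L H ∧ ∀ f, E f F → ∃ φ, FullUnif E w1 T L H f φ

end

end Pool.Agent.BVM
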