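import Pool.Agent.BVM.Los
import Pool.Agent.LadderTree.Values

/-!
# Check names
-/

namespace Pool.Agent.BVM

open Pool.Agent.LadderTree

section

variable {B : Type} [CompleteBooleanAlgebra B]

/-- the set with given elements -/
def chk {X : Type} (nm : X → BSet B) : BSet B := .mk X nm (fun _ => ⊤)

theorem memv_chk {X : Type} (nm : X → BSet B) (z : BSet B) :
    memv z (chk nm) = ⨆ x, eqv z (nm x) := by
  rw [chk, memv_mk]
  simp

theorem chk_ball {X : Type} {nm : X → BSet B} {Q : BSet B → B} (hQ : Congr Q) :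
    (⨅ x, memv x (chk nm) ⇨ Q x) = ⨅ x, Q (nm x) := by
  rw [chk, hQ.ball]
  simp

theorem chk_bex {X : Type} {nm : X → BSet B} {Q : BSet B → B} (hQ : Congr Q) :
    (⨆ x, memv x (chk nm) ⊓ Q x) = ⨆ x, Q (nm x) := by
  rw [chk, hQ.bex]
  simp

theorem eqv_chk {X Y : Type} (nm : X → BSet B) (nm' : Y → BSet B) :
    eqv (chk nm) (chk nm') = (⨅ x, ⨆ y, eqv (nm x) (nm' y)) ⊓ ⨅ y, ⨆ x, eqv (nm x) (nm' y) := by
  rw [chk, chk, eqv_mk]
  simp

theorem tv_inf (p q : Prop) : (tv p ⊓ tv q : B) = tv (p ∧ q) := by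
  by_cases hp : p <;> by_cases hq : q <;> simp [tv, hp, hq]

theorem tv_sup (p q : Prop) : (tv p ⊔ tv q : B) = tv (p ∨ q) := by
  by_cases hp : p <;> by_cases hq : q <;> simp [tv, hp, hq]

theorem tv_himp (p q : Prop) : (tv p ⇨ tv q : B) = tv (p → q) := by
  by_cases hp : p <;> by_cases hq : q <;> simp [tv, hp, hq]

theorem tv_compl (p : Prop) : ((tv p)ᶜ : B) = tv (¬ p) := by
  by_cases hp : p <;> simp [tv, hp]

theorem tv_iInf {X : Sort*} (p : X → Prop) : (⨅ x, tv (p x) : B) = tv (∀ x, p x) := by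
  by_cases h : ∀ x, p x
  · rw [tv_true h, iInf_eq_top]
    exact fun x => tv_true (h x)
  · rw [tv_false h]
    push Not at h
    obtain ⟨x, hx⟩ := h
    exact le_bot_iff.1 ((iInf_le _ x).trans (tv_false hx).le)

theorem tv_iSup {X : Sort*} (p : X → Prop) : (⨆ x, tv (p x) : B) = tv (∃ x, p x) := by
  by_cases h : ∃ x, p x
  · rw [tv_true h]
    obtain ⟨x, hx⟩ := h
    exact top_le_iff.1 ((tv_true hx).ge.trans (le_iSup (fun x => (tv (p x) : B)) x))
  · rw [tv_false h, iSup_eq_bot]
    push Not at h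
    exact fun x => tv_false (h x)

variable {X : Type} [LinearOrder X] [WellFoundedLT X]

/-- names for ordinals -/
noncomputable def on : X → BSet B :=
  WellFounded.fix (wellFounded_lt (α := X)) fun x rec => chk fun y : Set.Iio x => rec y.1 y.2

theorem on_def (x : X) : (on x : BSet B) = chk fun y : Set.Iio x => on y.1 := by
  unfold on
  rw [WellFounded.fix_eq]

theorem eqv_on (x y : X) : (eqv (on x) (on y) : B) = tv (x = y) := by
  induction x using WellFoundedLT.induction generalizing y with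
  | _ x ih =>
    rw [on_def x, on_def y, eqv_chk]
    have h : ∀ a : Set.Iio x, ∀ b : Set.Iio y, (eqv (on a.1) (on b.1) : B) = tv (a.1 = b.1) :=
      fun a b => ih a.1 a.2 b.1
    simp only [h, tv_iInf, tv_iSup, tv_inf]
    congr 1
    apply propext
    constructor
    · rintro ⟨h1, h2⟩
      rcases lt_trichotomy x y with h | h | h
      · obtain ⟨a, ha⟩ := h2 ⟨x, h⟩
        exact absurd a.2 (by rw [ha]; exact lt_irrefl x)
      · exact h
      · obtain ⟨a, ha⟩ := h1 ⟨y, h⟩
        exact absurd a.2 (by rw [← ha]; exact lt_irrefl y)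
    · rintro rfl
      exact ⟨fun a => ⟨a, rfl⟩, fun a => ⟨a, rfl⟩⟩

theorem memv_on (x y : X) : (memv (on x) (on y) : B) = tv (x < y) := by
  rw [on_def y, memv_chk]
  simp only [eqv_on, tv_iSup]
  congr 1
  apply propext
  constructor
  · rintro ⟨a, rfl⟩
    exact a.2
  · intro h
    exact ⟨⟨x, h⟩, rfl⟩

/-- the name for the whole well-order -/
noncomputable def onT (X : Type) [LinearOrder X] [WellFoundedLT X] : BSet B :=
  chk (on : X → BSet B)

theorem memv_on_onT (x : X) : (memv (on x) (onT X) : B) = ⊤ := by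
  rw [onT, memv_chk, eq_top_iff]
  exact le_iSup_of_le x (by rw [eqv_refl])

end

end Pool.Agent.BVM
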