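import Pool.Agent.BVM.Card

/-!
# Further tools for the quotient models
-/

namespace Pool.Agent.BVM

open Pool.Agent.LadderTree

section

variable {B : Type} [CompleteBooleanAlgebra B]

theorem Congr.iInf {ι : Sort*} {Q : ι → BSet B → B} (h : ∀ i, Congr (Q i)) :
    Congr (fun x => ⨅ i, Q i x) := by
  intro x y
  refine le_iInf fun i => ?_
  exact (inf_le_inf_left _ (iInf_le _ i)).trans (h i x y)

theorem Congr.himp {Q : BSet B → B} (c : B) (hQ : Congr Q) : Congr (fun x => c ⇨ Q x) :=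
  fun x y => himp_congr_le inf_le_right (hQ x y)

theorem val_congr3 (φ : Fml) (v : ℕ → BSet B) (z t : BSet B) :
    Congr (fun x => val φ (cons t (cons z (cons x v)))) := by
  intro x y
  refine val_congr φ _ _ (eqv x y) ?_
  rintro (_ | _ | _ | n)
  · exact le_top.trans (eqv_refl _).ge
  · exact le_top.trans (eqv_refl _).ge
  · exact le_rfl
  · exact le_top.trans (eqv_refl _).ge

theorem val_congr4 (φ : Fml) (v : ℕ → BSet B) (z t s : BSet B) :
    Congr (fun x => val φ (cons s (cons t (cons z (cons x v))))) := by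
  intro x y
  refine val_congr φ _ _ (eqv x y) ?_
  rintro (_ | _ | _ | _ | n)
  · exact le_top.trans (eqv_refl _).ge
  · exact le_top.trans (eqv_refl _).ge
  · exact le_top.trans (eqv_refl _).ge
  · exact le_rfl
  · exact le_top.trans (eqv_refl _).ge

/-- two bounded quantifiers -/
theorem ball2_chk {X Y : Type} (nm : X → BSet B) (nm' : Y → BSet B) (φ : Fml)
    (v : ℕ → BSet B) (c : B)
    (h : ∀ F : UF B, F.U c → ∀ a b, Sat (Mod.E F) φ (cons (Mod.mk F (nm' b))
      (cons (Mod.mk F (nm a)) fun i => Mod.mk F (v i))))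
    (F : UF B) (hF : F.U c) (x y : Mod F) (hx : Mod.E F x (Mod.mk F (chk nm)))
    (hy : Mod.E F y (Mod.mk F (chk nm'))) :
    Sat (Mod.E F) φ (cons y (cons x fun i => Mod.mk F (v i))) := by
  obtain ⟨x, rfl⟩ := x.exists_rep
  obtain ⟨y, rfl⟩ := y.exists_rep
  rw [cons_mk, cons_mk, los]
  have h1 : c ≤ ⨅ a, ⨅ b, val φ (cons (nm' b) (cons (nm a) v)) := by
    refine le_iInf fun a => le_iInf fun b => le_of_uf fun F' hF' => ?_
    have := h F' hF' a b
    rwa [cons_mk, cons_mk, los] at this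
  have h2 : ∀ a, (⨅ b, val φ (cons (nm' b) (cons (nm a) v))) =
      ⨅ y, memv y (chk nm') ⇨ val φ (cons y (cons (nm a) v)) := fun a =>
    (chk_ball (val_congr1 φ (cons (nm a) v))).symm
  simp only [h2] at h1
  have hQ : Congr (fun x => ⨅ y, memv y (chk nm') ⇨ val φ (cons y (cons x v))) :=
    Congr.iInf fun y => (val_congr2 φ v y).himp _
  have h3 := chk_ball (nm := nm) hQ
  rw [← h3] at h1
  have h4 := F.mono (h1.trans (iInf_le _ x)) hF
  rw [F.himp_iff] at h4
  have h5 := F.mono (iInf_le _ y) (h4 hx)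
  rw [F.himp_iff] at h5
  exact h5 hy

/-- three bounded quantifiers -/
theorem ball3_chk {X Y Z : Type} (nm : X → BSet B) (nm' : Y → BSet B) (nm'' : Z → BSet B)
    (φ : Fml) (v : ℕ → BSet B) (c : B)
    (h : ∀ F : UF B, F.U c → ∀ a b d, Sat (Mod.E F) φ (cons (Mod.mk F (nm'' d))
      (cons (Mod.mk F (nm' b)) (cons (Mod.mk F (nm a)) fun i => Mod.mk F (v i)))))
    (F : UF B) (hF : F.U c) (x y z : Mod F) (hx : Mod.E F x (Mod.mk F (chk nm)))
    (hy : Mod.E F y (Mod.mk F (chk nm'))) (hz : Mod.E F z (Mod.mk F (chk nm''))) :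
    Sat (Mod.E F) φ (cons z (cons y (cons x fun i => Mod.mk F (v i)))) := by
  obtain ⟨x, rfl⟩ := x.exists_rep
  rw [cons_mk]
  have hQ : Congr (fun x => ⨅ y, memv y (chk nm') ⇨ ⨅ z, memv z (chk nm'') ⇨
      val φ (cons z (cons y (cons x v)))) :=
    Congr.iInf fun y => Congr.himp _ (Congr.iInf fun z => (val_congr3 φ v y z).himp _)
  have h1 : c ≤ ⨅ a, ⨅ y, memv y (chk nm') ⇨ ⨅ z, memv z (chk nm'') ⇨
      val φ (cons z (cons y (cons (nm a) v))) := by
    refine le_iInf fun a => le_iInf fun y => ?_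
    rw [le_himp_iff]
    refine le_iInf fun z => ?_
    rw [le_himp_iff]
    refine le_of_uf fun F' hF' => ?_
    rw [F'.inf_iff, F'.inf_iff] at hF'
    rw [← los, ← cons_mk, ← cons_mk]
    exact ball2_chk nm' nm'' φ (cons (nm a) v) c (fun G hG b d => by
      have := h G hG a b d
      rwa [cons_mk] at this) F' hF'.1.1 _ _ hF'.1.2 hF'.2
  rw [← chk_ball hQ] at h1
  have h4 := F.mono (h1.trans (iInf_le _ x)) hF
  rw [F.himp_iff] at h4
  have h5 := h4 hx
  obtain ⟨y, rfl⟩ := y.exists_rep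
  obtain ⟨z, rfl⟩ := z.exists_rep
  have h6 := F.mono (iInf_le _ y) h5
  rw [F.himp_iff] at h6
  have h7 := F.mono (iInf_le _ z) (h6 hy)
  rw [F.himp_iff] at h7
  rw [cons_mk, cons_mk, los]
  exact h7 hz

/-- four bounded quantifiers -/
theorem ball4_chk {X Y Z W : Type} (nm : X → BSet B) (nm' : Y → BSet B) (nm'' : Z → BSet B)
    (nm3 : W → BSet B) (φ : Fml) (v : ℕ → BSet B) (c : B)
    (h : ∀ F : UF B, F.U c → ∀ a b d e, Sat (Mod.E F) φ (cons (Mod.mk F (nm3 e))
      (cons (Mod.mk F (nm'' d)) (cons (Mod.mk F (nm' b)) (cons (Mod.mk F (nm a))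
        fun i => Mod.mk F (v i))))))
    (F : UF B) (hF : F.U c) (x y z t : Mod F) (hx : Mod.E F x (Mod.mk F (chk nm)))
    (hy : Mod.E F y (Mod.mk F (chk nm'))) (hz : Mod.E F z (Mod.mk F (chk nm'')))
    (ht : Mod.E F t (Mod.mk F (chk nm3))) :
    Sat (Mod.E F) φ (cons t (cons z (cons y (cons x fun i => Mod.mk F (v i))))) := by
  obtain ⟨x, rfl⟩ := x.exists_rep
  rw [cons_mk]
  have hQ : Congr (fun x => ⨅ y, memv y (chk nm') ⇨ ⨅ z, memv z (chk nm'') ⇨
      ⨅ t, memv t (chk nm3) ⇨ val φ (cons t (cons z (cons y (cons x v))))) :=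
    Congr.iInf fun y => Congr.himp _ (Congr.iInf fun z => Congr.himp _ (Congr.iInf fun t =>
      (val_congr4 φ v y z t).himp _))
  have h1 : c ≤ ⨅ a, ⨅ y, memv y (chk nm') ⇨ ⨅ z, memv z (chk nm'') ⇨
      ⨅ t, memv t (chk nm3) ⇨ val φ (cons t (cons z (cons y (cons (nm a) v)))) := by
    refine le_iInf fun a => le_iInf fun y => ?_
    rw [le_himp_iff]
    refine le_iInf fun z => ?_
    rw [le_himp_iff]
    refine le_iInf fun t => ?_
    rw [le_himp_iff]
    refine le_of_uf fun F' hF' => ?_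
    rw [F'.inf_iff, F'.inf_iff, F'.inf_iff] at hF'
    rw [← los, ← cons_mk, ← cons_mk, ← cons_mk]
    exact ball3_chk nm' nm'' nm3 φ (cons (nm a) v) c (fun G hG b d e => by
      have := h G hG a b d e
      rwa [cons_mk] at this) F' hF'.1.1.1 _ _ _ hF'.1.1.2 hF'.1.2 hF'.2
  rw [← chk_ball hQ] at h1
  have h4 := F.mono (h1.trans (iInf_le _ x)) hF
  rw [F.himp_iff] at h4
  have h5 := h4 hx
  obtain ⟨y, rfl⟩ := y.exists_rep
  obtain ⟨z, rfl⟩ := z.exists_rep
  obtain ⟨t, rfl⟩ := t.exists_rep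
  have h6 := F.mono (iInf_le _ y) h5
  rw [F.himp_iff] at h6
  have h7 := F.mono (iInf_le _ z) (h6 hy)
  rw [F.himp_iff] at h7
  have h8 := F.mono (iInf_le _ t) (h7 hz)
  rw [F.himp_iff] at h8
  rw [cons_mk, cons_mk, cons_mk, los]
  exact h8 ht

/-- relations are between the given sets -/
theorem relN_dom {X Y : Type} {nm : X → BSet B} {nm' : Y → BSet B} {R : X → Y → B} {F : UF B}
    {x y : Mod F} (h : Rel (Mod.E F) (Mod.mk F (relN nm nm' R)) x y) :
    Mod.E F x (Mod.mk F (chk nm)) ∧ Mod.E F y (Mod.mk F (chk nm')) := by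
  obtain ⟨x, rfl⟩ := x.exists_rep
  obtain ⟨y, rfl⟩ := y.exists_rep
  rw [Rel_mk, memv_relN] at h
  rw [Mod.E_mk, Mod.E_mk, memv_chk, memv_chk]
  constructor
  · refine F.mono (iSup_le fun a => iSup_le fun b => le_iSup_of_le a ?_) h
    exact inf_le_right.trans inf_le_left
  · refine F.mono (iSup_le fun a => iSup_le fun b => le_iSup_of_le b ?_) h
    exact inf_le_right.trans inf_le_right

theorem E_chk {X : Type} (nm : X → BSet B) (a : X) (F : UF B) :
    Mod.E F (Mod.mk F (nm a)) (Mod.mk F (chk nm)) := by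
  rw [Mod.E_mk, memv_chk]
  exact F.mono (le_iSup_of_le a (eqv_refl _).ge) F.top

theorem Rel_disc {X Y : Type} {nm : X → BSet B} {nm' : Y → BSet B} (h : Disc nm)
    (h' : Disc nm') (R : X → Y → B) (a : X) (b : Y) (F : UF B) :
    Rel (Mod.E F) (Mod.mk F (relN nm nm' R)) (Mod.mk F (nm a)) (Mod.mk F (nm' b)) ↔
      F.U (R a b) := by
  rw [Rel_mk, Rel_relN h h']

end

end Pool.Agent.BVM
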