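import Pool.Agent.BVM.Tool
import Pool.Agent.LadderTree.Bad

/-!
# The generic tree is an Aronszajn tree in the quotient models
-/

namespace Pool.Agent.BVM

open Pool.Agent.LadderTree Pool.Agent.Forcing

set_option linter.unusedSectionVars false

section

variable {Ω I : Type} [LinearOrder Ω] [LinearOrder I] [WellFoundedLT I] [WellFoundedLT Ω]
  [Omega1 Ω]

/-- names of the nodes -/
noncomputable def nmT {B : Type} [CompleteBooleanAlgebra B] (s : Ω × ℕ) : BSet B :=
  op (on s.1) (on s.2)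

theorem disc_nmT {B : Type} [CompleteBooleanAlgebra B] : Disc (nmT : Ω × ℕ → BSet B) :=
  disc_on.op disc_on

/-- the underlying set -/
noncomputable def TT : BSet (RO (PP Ω I)) := chk (nmT : Ω × ℕ → BSet (RO (PP Ω I)))

/-- the order -/
noncomputable def LLn (i : I) : BSet (RO (PP Ω I)) := relN nmT nmT (LL i)

/-- the height function -/
noncomputable def HH : BSet (RO (PP Ω I)) := relN (nmT : Ω × ℕ → _) on fun s α => tv (s.1 = α)

theorem Rel_HH (F : UF (RO (PP Ω I))) (s : Ω × ℕ) (α : Ω) :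
    Rel (Mod.E F) (Mod.mk F HH) (Mod.mk F (nmT s)) (Mod.mk F (on α)) ↔ s.1 = α := by
  rw [HH, Rel_disc disc_nmT disc_on, F.tv_iff]

theorem Rel_LLn (i : I) (F : UF (RO (PP Ω I))) (s t : Ω × ℕ) :
    Rel (Mod.E F) (Mod.mk F (LLn i)) (Mod.mk F (nmT s)) (Mod.mk F (nmT t)) ↔
      F.U (LL i s t) := by
  rw [LLn, Rel_disc disc_nmT disc_nmT]

/-- formula: `x₀` is a subset of `x₁` and a chain with respect to `x₂` -/
def fCh : Fml := .and (.all (.imp (.mem 0 1) (.mem 0 2)))
  (.all (.all (.imp (.mem 1 2) (.imp (.mem 0 2) (.or (.eq 1 0)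
    (.or (fRel 4 1 0) (fRel 4 0 1)))))))

theorem sat_fCh {M : Type*} {E : M → M → Prop} (b T L : M) :
    Sat E fCh (cons b (cons T fun _ => L)) ↔ (∀ t, E t b → E t T) ∧
      ∀ s t, E s b → E t b → s = t ∨ Rel E L s t ∨ Rel E L t s := Iff.rfl

/-- the generic tree is an Aronszajn tree -/
theorem aron_LLn (i : I) (F : UF (RO (PP Ω I))) :
    Aronszajn (Mod.E F) (Mod.mk F (onT ℕ)) (Mod.mk F (onT Ω)) (Mod.mk F TT) (Mod.mk F (LLn i))
      (Mod.mk F HH) where
  field s t h := relN_dom h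
  trans s t u h h' := by
    obtain ⟨hs, ht⟩ := relN_dom h
    obtain ⟨_, hu⟩ := relN_dom h'
    refine ball3_chk nmT nmT nmT (.imp (fRel 3 2 1) (.imp (fRel 3 1 0) (fRel 3 2 0)))
      (fun _ => LLn i) ⊤ (fun G _ a b c => ?_) F F.top s t u hs ht hu h h'
    intro h1 h2
    have h1' := (Rel_LLn i G a b).1 h1
    have h2' := (Rel_LLn i G b c).1 h2
    exact (Rel_LLn i G a c).2 (G.mono (LL_trans i a b c) (G.inf h1' h2'))
  fn := by
    refine funOn_relN disc_nmT (fun a => ?_) (fun a b b' => ?_) F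
    · rw [tv_iSup]
      exact tv_true ⟨_, rfl⟩
    · rw [tv_inf, eqv_on]
      by_cases h : a.1 = b ∧ a.1 = b'
      · rw [tv_true (h.1.symm.trans h.2)]; exact le_top
      · rw [tv_false h]; exact bot_le
  bdd t α h := (relN_dom h).2
  mono s t α β h h' h'' := by
    obtain ⟨hs, ht⟩ := relN_dom h
    obtain ⟨_, hα⟩ := relN_dom h'
    obtain ⟨_, hβ⟩ := relN_dom h''
    refine ball4_chk nmT nmT on on (.imp (fRel 4 3 2) (.imp (fRel 5 3 1) (.imp (fRel 5 2 0)
      (.mem 1 0)))) (cons (LLn i) fun _ => HH) ⊤ (fun G _ a b c d => ?_) F F.top s t α β hs ht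
      hα hβ h h' h''
    intro h1 h2 h3
    have h1' := (Rel_LLn i G a b).1 h1
    have h2' := (Rel_HH G a c).1 h2
    have h3' := (Rel_HH G b d).1 h3
    have h4 := (G.tv_iff).1 (G.mono (LL_lt i a b) h1')
    rw [h2', h3'] at h4
    exact E_on h4 G
  pred t β α h hα := by
    obtain ⟨ht, hβ⟩ := relN_dom h
    have hα' : Mod.E F α (Mod.mk F (onT Ω)) := (ordl_onT (X := Ω) F).1 _ _ hβ hα
    refine ball3_chk nmT on on (.imp (fRel 4 2 1) (.imp (.mem 0 1)
      (.ex (.and (.and (fRel 4 0 3) (fRel 5 0 1))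
      (.all (.imp (fRel 5 0 4) (.imp (fRel 6 0 2) (.eq 0 1)))))))) (cons (LLn i) fun _ => HH) ⊤
      (fun G _ a b c => ?_) F F.top t β α ht hβ hα' h hα
    intro h1 h2
    have h1' := (Rel_HH G a b).1 h1
    have h2' : c < b := (E_on_iff G).1 h2
    rw [← h1'] at h2'
    have h3 := LL_pred i c a h2'
    have h4 : G.U (⨆ m, LL i (c, m) a) := by rw [h3]; exact G.top
    have h5 := ex_of_iSup h4 (.and (.and (fRel 4 0 3) (fRel 5 0 1))
      (.all (.imp (fRel 5 0 4) (.imp (fRel 6 0 2) (.eq 0 1)))))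
      (cons (on c) (cons (on b) (cons (nmT a) (cons (LLn i) fun _ => HH))))
      (fun m => nmT (c, m)) (fun m => ?_)
    · simp only [← cons_mk] at h5
      exact h5
    · refine le_val fun G' hG' => ?_
      simp only [← cons_mk]
      refine ⟨⟨(Rel_LLn i G' _ _).2 hG', (Rel_HH G' _ _).2 rfl⟩, fun s' hs1 hs2 => ?_⟩
      have hs3 := (relN_dom hs2).1
      have := ball_chk nmT (.imp (fRel 4 0 3) (.imp (fRel 5 0 1) (.eq 0 6)))
        (cons (on c) (cons (on b) (cons (nmT a) (cons (LLn i) (cons HH fun _ => nmT (c, m))))))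
        (LL i (c, m) a) (fun G'' hG'' b' => ?_) G' hG' s' hs3
      · simp only [← cons_mk] at this
        exact this hs1 hs2
      · simp only [← cons_mk]
        intro k1 k2
        have k1' := (Rel_LLn i G'' b' a).1 k1
        have k2' := (Rel_HH G'' b' c).1 k2
        obtain ⟨b1, b2⟩ := b'
        simp only at k2'
        subst k2'
        have k3 := (G''.tv_iff).1 (G''.mono (LL_uniq i b1 b2 m a) (G''.inf k1' hG''))
        subst k3
        rfl
  level α hα := by
    refine ball_chk on (fLevel 1 0 2) (cons (onT ℕ) fun _ => HH) ⊤ (fun G _ a => ?_) F F.top α hα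
    refine ⟨Mod.mk G (chk fun n : ℕ => nmT (a, n)), fun t => ⟨fun ht => ?_, fun ht => ?_⟩,
      ⟨_, E_chk (fun n : ℕ => nmT (a, n)) 0 G⟩, ?_⟩
    · have := ball_chk (fun n : ℕ => nmT (a, n)) (fRel 2 0 1) (cons (on a) fun _ => HH) ⊤
        (fun G' _ n => (Rel_HH G' (a, n) a).2 rfl) G G.top t ht
      exact this
    · have ht' : Rel (Mod.E G) (Mod.mk G HH) t (Mod.mk G (on a)) := ht
      have h1 := (relN_dom ht').1
      have := ball_chk nmT (.imp (fRel 2 0 1) (.mem 0 3))
        (cons (on a) (cons HH fun _ => chk fun n : ℕ => nmT (a, n))) ⊤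
        (fun G' _ s => ?_) G G.top t h1
      · exact this ht
      · intro h2
        have h2' := (Rel_HH G' s a).1 h2
        obtain ⟨s1, s2⟩ := s
        simp only at h2'
        subst h2'
        exact E_chk (fun n : ℕ => nmT (s1, n)) s2 G'
    · exact cardLE_chk disc_on (disc_nmT.comp (f := fun n : ℕ => (a, n)) fun n m h =>
        (Prod.ext_iff.1 h).2) (fun n m => n = m) (fun _ _ _ h h' => h.symm.trans h')
        (fun n => ⟨n, rfl⟩) G
  chain b hb hch := by
    obtain ⟨b, rfl⟩ := b.exists_rep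
    -- the value of the hypothesis
    obtain ⟨c, hcdef⟩ : ∃ c, c = val fCh (cons b (cons TT fun _ => LLn i)) := ⟨_, rfl⟩
    have hcG : ∀ G : UF (RO (PP Ω I)), G.U c ↔ (∀ t, Mod.E G t (Mod.mk G b) →
        Mod.E G t (Mod.mk G TT)) ∧ ∀ s t, Mod.E G s (Mod.mk G b) → Mod.E G t (Mod.mk G b) →
        (s = t ∨ Rel (Mod.E G) (Mod.mk G (LLn i)) s t ∨
          Rel (Mod.E G) (Mod.mk G (LLn i)) t s) := by
      intro G
      rw [hcdef, ← los, ← sat_fCh, cons_mk, cons_mk]
    have hc : F.U c := (hcG F).2 ⟨hb, hch⟩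
    let R : ℕ → Ω × ℕ → RO (PP Ω I) := fun r t => memv (nmT t) b ⊓ SP i t r
    refine ⟨Mod.mk F (relN on nmT R), ?_, fun y hy => ?_⟩
    · intro x y y' h h'
      refine fun_relN disc_on (c := c) (fun r t t' => ?_) F hc x y y' h h'
      refine le_of_uf fun G hG => ?_
      simp only [R, G.inf_iff] at hG
      obtain ⟨h1, ⟨h2, h3⟩, h4, h5⟩ := hG
      have h6 := ((hcG G).1 h1).2 (Mod.mk G (nmT t)) (Mod.mk G (nmT t')) h2 h4
      rw [Mod.mk_eq, Rel_LLn, Rel_LLn] at h6
      rcases h6 with h6 | h6 | h6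
      · exact h6
      · exact (G.bot ((SP_lt i t t' r) ▸ G.inf h6 (G.inf h3 h5))).elim
      · exact (G.bot ((SP_lt i t' t r) ▸ G.inf h6 (G.inf h5 h3))).elim
    · have hyT := hb y hy
      have := ball_chk nmT (.imp (.mem 0 1) (.ex (.and (.mem 0 3) (fRel 4 0 1))))
        (cons b (cons (onT ℕ) fun _ => relN on nmT R)) ⊤ (fun G _ t => ?_) F F.top y hyT
      · exact this hy
      · intro ht
        have h1 : G.U (⨆ r, SP i t r) := by rw [SP_tot]; exact G.top
        have h2 : G.U (memv (nmT t) b) := ht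
        have h3 : G.U (⨆ r, memv (nmT t) b ⊓ SP i t r) := by
          rw [← inf_iSup_eq]; exact G.inf h2 h1
        refine ex_of_iSup h3 (.and (.mem 0 3) (fRel 4 0 1))
          (cons (nmT t) (cons b (cons (onT ℕ) fun _ => relN on nmT R))) (fun r => on r)
          (fun r => le_val fun G' hG' => ?_)
        exact ⟨E_onT r G', (Rel_disc disc_on disc_nmT R r t G').2 hG'⟩

end

end Pool.Agent.BVM
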