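import Pool.Agent.BVM.Tree
import Pool.Agent.LadderTree.Enum

/-!
# Uniformization on the generic tree, in the quotient models
-/

namespace Pool.Agent.BVM

open Pool.Agent.LadderTree Pool.Agent.Forcing

set_option linter.unusedSectionVars false

section

variable {B : Type} [CompleteBooleanAlgebra B]

/-- fullness for formulas -/
theorem exists_of_le_ex {c : B} {φ : Fml} {v : ℕ → BSet B} (h : c ≤ val (.ex φ) v) :
    ∃ x, c ≤ val φ (cons x v) := by
  obtain ⟨x, hx⟩ := (val_congr1 φ v).full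
  exact ⟨x, h.trans hx.ge⟩

theorem FunOn.mem {M : Type*} {E : M → M → Prop} {f d x y : M} (h : FunOn E f d)
    (hxy : Rel E f x y) : E x d := by
  obtain ⟨z, h1, h2⟩ := hxy
  obtain ⟨x', y', h3, h4⟩ := h.1 z h2
  rw [(OPair.inj h1 h4).1]
  exact h3

theorem FunOn.eq {M : Type*} {E : M → M → Prop} {f d x y y' : M} (h : FunOn E f d)
    (hxy : Rel E f x y) (hxy' : Rel E f x y') : y = y' := by
  obtain ⟨y0, _, h0⟩ := h.2 x (h.mem hxy)
  rw [h0 y hxy, h0 y' hxy']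

end

section

variable {Ω I : Type} [LinearOrder Ω] [LinearOrder I] [WellFoundedLT I] [WellFoundedLT Ω]
  [Omega1 Ω]

theorem isLim_of_limit {α : Ω} {F : UF (RO (PP Ω I))}
    (h : Limit (Mod.E F) (Mod.mk F (on α))) : IsLim α := by
  by_contra hcon
  exact not_limit_on hcon F h

/-- the label function -/
noncomputable def phN (i : I) (f : Nme Ω I) : BSet (RO (PP Ω I)) :=
  relN (nmT : Ω × ℕ → _) (on : ℕ → _) fun s k => fact i (.lab s f k)

theorem fullUnif_of {i : I} {c : RO (PP Ω I)} {g : Ω → Ω → ℕ → RO (PP Ω I)} {f : Nme Ω I}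
    (hlab : ∀ α, IsLim α → ∀ n, c ≤ ⨆ γ : Set.Iio α, ⨅ ξ : Set.Iio α,
      tv (γ.1 < ξ.1) ⇨ ⨅ k, g α ξ k ⇨ ⨅ m, LL i (ξ.1, m) (α, n) ⇨ fact i (.lab (ξ.1, m) f k))
    (f' : BSet (RO (PP Ω I))) (d : RO (PP Ω I)) (hdc : d ≤ c)
    (hd : ∀ G : UF (RO (PP Ω I)), G.U d → ∀ α : Ω, IsLim α → ∀ g' : Mod G,
      Rel (Mod.E G) (Mod.mk G f') (Mod.mk G (on α)) g' →
        (∀ x n, Rel (Mod.E G) g' x n → Mod.E G n (Mod.mk G (onT ℕ))) ∧
        ∀ (ξ : Ω) (n : ℕ), Rel (Mod.E G) g' (Mod.mk G (on ξ)) (Mod.mk G (on n)) →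
          G.U (g α ξ n))
    (F : UF (RO (PP Ω I))) (hF : F.U d) :
    FullUnif (Mod.E F) (Mod.mk F (onT Ω)) (Mod.mk F TT) (Mod.mk F (LLn i)) (Mod.mk F HH)
      (Mod.mk F f') (Mod.mk F (phN i f)) := by
  refine ⟨fun s hs β hβ => ?_, ?_, fun s α g' hsα hα hfg => ?_⟩
  · -- pruned
    refine ball2_chk nmT on (.ex (.ex (.and (fRel 4 3 1) (.and (fRel 5 1 0) (.mem 2 0)))))
      (cons (LLn i) fun _ => HH) ⊤ (fun G _ s β => ?_) F F.top s β hs hβ
    obtain ⟨ξ, hξ⟩ := exists_gt' (max s.1 β)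
    have h1 := LL_up i ξ s ((le_max_left _ _).trans_lt hξ)
    have h2 : G.U (⨆ m, LL i s (ξ, m)) := by rw [h1]; exact G.top
    have h3 := ex_of_iSup h2 (.ex (.and (fRel 4 3 1) (.and (fRel 5 1 0) (.mem 2 0))))
      (cons (on β) (cons (nmT s) (cons (LLn i) fun _ => HH))) (fun m => nmT (ξ, m)) (fun m => ?_)
    · simp only [← cons_mk] at h3
      exact h3
    · refine le_val fun G' hG' => ?_
      simp only [← cons_mk]
      exact ⟨Mod.mk G' (on ξ), (Rel_LLn i G' _ _).2 hG', (Rel_HH G' _ _).2 rfl,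
        E_on ((le_max_right _ _).trans_lt hξ) G'⟩
  · refine funOn_relN disc_nmT (fun a => LB_tot i a f) (fun a b b' => ?_) F
    rw [eqv_on]
    exact LB_fun i a f b b'
  · obtain ⟨hs, hαw⟩ := relN_dom hsα
    refine ball2_chk nmT on (.imp (fRel 2 1 0) (.imp (fLimit 0) (.all (.imp (fRel 6 1 0)
      (fUnif1 4 3 5 2 1 0))))) (cons HH (cons (LLn i) (cons (phN i f) fun _ => f'))) d
      (fun G hG s α => ?_) F hF s α hs hαw hsα hα g' hfg
    intro h1 h2 g'' h3
    have h1' : s.1 = α := (Rel_HH G s α).1 h1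
    have h2' : IsLim α := isLim_of_limit h2
    obtain ⟨g'', rfl⟩ := g''.exists_rep
    have h3' : G.U (memv (op (on α) g'') f') := Rel_mk.1 h3
    have h4 := G.mono (hdc.trans (hlab α h2' s.2)) hG
    have h5 := G.inf (G.inf hG h3') h4
    rw [inf_iSup_eq] at h5
    have h6 := ex_of_iSup h5 (fUnif0 4 3 5 2 1 0)
      (cons g'' (cons (on α) (cons (nmT s) (cons HH (cons (LLn i) (cons (phN i f)
        fun _ => f')))))) (fun γ => on γ.1) (fun γ => ?_)
    · simp only [← cons_mk] at h6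
      exact h6
    · refine le_val fun G1 hG1 => ?_
      simp only [← cons_mk]
      refine ⟨E_on γ.2 G1, fun ξ k h7 h8 u h9 h10 => ?_⟩
      have h7' : Mod.E G1 (Mod.mk G1 (on γ.1)) ξ := h7
      have h8' : Rel (Mod.E G1) (Mod.mk G1 g'') ξ k := h8
      have h9' : Rel (Mod.E G1) (Mod.mk G1 (LLn i)) u (Mod.mk G1 (nmT s)) := h9
      have h10' : Rel (Mod.E G1) (Mod.mk G1 HH) u ξ := h10
      have hG1' := G1.inf_iff.1 hG1
      have hG1'' := G1.inf_iff.1 hG1'.1
      have hk : Mod.E G1 k (Mod.mk G1 (onT ℕ)) :=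
        (hd G1 hG1''.1 α h2' (Mod.mk G1 g'') (Rel_mk.2 hG1''.2)).1 ξ k h8'
      obtain ⟨huT, hξw⟩ := relN_dom h10'
      have := ball3_chk nmT (on : Ω → _) (on : ℕ → _) (.imp (.mem 3 1) (.imp (fRel 4 1 0)
        (.imp (fRel 5 2 8) (.imp (fRel 6 2 1) (fRel 7 2 0)))))
        (cons (on γ.1) (cons g'' (cons (LLn i) (cons HH (cons (phN i f) fun _ => nmT s)))))
        _ (fun G2 hG2 u ξ k => ?_) G1 hG1 u ξ k huT hξw hk
      · simp only [← cons_mk] at this
        exact this h7' h8' h9' h10'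
      · simp only [← cons_mk]
        intro k1 k2 k3 k4
        have k1' : γ.1 < ξ := (E_on_iff G2).1 k1
        have k3' : G2.U (LL i u s) := (Rel_LLn i G2 u s).1 k3
        have k4' : u.1 = ξ := (Rel_HH G2 u ξ).1 k4
        have hG2' := G2.inf_iff.1 hG2
        have hG2'' := G2.inf_iff.1 hG2'.1
        have k2' : G2.U (g α ξ k) :=
          (hd G2 hG2''.1 α h2' (Mod.mk G2 g'') (Rel_mk.2 hG2''.2)).2 ξ k k2
        have k5 : ξ < α := by
          rw [← k4', ← h1']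
          exact G2.tv_iff.1 (G2.mono (LL_lt i u s) k3')
        have k6 := G2.mono (iInf_le _ (⟨ξ, k5⟩ : Set.Iio α)) hG2'.2
        rw [G2.himp_iff, G2.tv_iff] at k6
        have k7 := G2.mono (iInf_le _ k) (k6 k1')
        rw [G2.himp_iff] at k7
        have k8 := G2.mono (iInf_le _ u.2) (k7 k2')
        rw [G2.himp_iff] at k8
        have e1 : (ξ, u.2) = u := by rw [← k4']
        have e2 : (α, s.2) = s := by rw [← h1']
        simp only [e1, e2] at k8
        exact (Rel_disc disc_nmT disc_on _ u k G2).2 (k8 k3')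

end

end Pool.Agent.BVM
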